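import Mathlib

/-!
# The linear algebra of the counting argument
-/

set_option autoImplicit false

namespace Pool.Agent.TH150.Theta

open Filter Topology Asymptotics

/-- If there are as many first order conditions as coordinates, and one coordinate is constant,
then not all prescribed values are attained by functions which factor through `h`. -/
theorem core {X κ A : Type*} [TopologicalSpace X] [Fintype κ] [Fintype A]
    [DecidableEq A]
    (hcard : Fintype.card A = Fintype.card κ)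
    (x₀ : X) (h : X → κ → ℂ) (k₀ : κ) (hk₀ : ∀ᶠ x in 𝓝 x₀, h x k₀ = 1)
    (hc : ContinuousAt h x₀)
    (p q : A → ℂ → X) (hp : ∀ a, Tendsto (p a) (𝓝[≠] 0) (𝓝 x₀))
    (hq : ∀ a, Tendsto (q a) (𝓝[≠] 0) (𝓝 x₀)) (k : A → ℕ)
    (hO : ∀ a, (fun t => h (p a t) - h (q a t)) =O[𝓝[≠] 0] (fun t : ℂ => t ^ k a))
    (m : A → X → ℂ)
    (hm : ∀ a b, Tendsto (fun t : ℂ => (t ^ k a)⁻¹ * (m b (p a t) - m b (q a t))) (𝓝[≠] 0)
      (𝓝 (if a = b then 1 else 0))) :
    ∃ c : A → ℂ, ∀ F : (κ → ℂ) → ℂ, (∃ F' : (κ → ℂ) →L[ℂ] ℂ, HasStrictFDerivAt F F' (h x₀)) →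
      ¬ ∀ᶠ x in 𝓝 x₀, ∑ b, c b * m b x = F (h x) := by
  classical
  -- an ultrafilter
  set 𝒰 : Ultrafilter ℂ := Ultrafilter.of (𝓝[≠] (0 : ℂ)) with h𝒰
  have hU : (𝒰 : Filter ℂ) ≤ 𝓝[≠] 0 := Ultrafilter.of_le _
  -- the limits
  have hL : ∀ a, ∃ L : κ → ℂ, Tendsto (fun t : ℂ => (t ^ k a)⁻¹ • (h (p a t) - h (q a t))) 𝒰
      (𝓝 L) := by
    intro a
    obtain ⟨C, hC⟩ := (hO a).bound
    have h1 : ∀ᶠ t in (𝒰 : Filter ℂ), (t ^ k a)⁻¹ • (h (p a t) - h (q a t)) ∈
        Metric.closedBall (0 : κ → ℂ) C := by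
      refine hU ?_
      have hne : ∀ᶠ t : ℂ in 𝓝[≠] 0, t ≠ 0 := eventually_mem_nhdsWithin
      filter_upwards [hC, hne] with t ht htne
      rw [Metric.mem_closedBall, dist_zero_right, norm_smul, norm_inv]
      have hpos : 0 < ‖t ^ k a‖ := norm_pos_iff.mpr (pow_ne_zero _ htne)
      rw [inv_mul_le_iff₀ hpos]
      linarith [mul_comm C ‖t ^ k a‖]
    have h2 := (isCompact_closedBall (0 : κ → ℂ) C).ultrafilter_le_nhds
      (𝒰.map (fun t : ℂ => (t ^ k a)⁻¹ • (h (p a t) - h (q a t)))) (by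
        rw [Ultrafilter.coe_map]
        exact le_principal_iff.mpr h1)
    obtain ⟨L, -, hL⟩ := h2
    exact ⟨L, hL⟩
  choose L hL using hL
  have hL0 : ∀ a, L a k₀ = 0 := by
    intro a
    have h1 : Tendsto (fun t : ℂ => ((t ^ k a)⁻¹ • (h (p a t) - h (q a t))) k₀) 𝒰 (𝓝 (L a k₀)) :=
      (tendsto_pi_nhds.mp (hL a)) k₀
    have h2 : (fun t : ℂ => ((t ^ k a)⁻¹ • (h (p a t) - h (q a t))) k₀) =ᶠ[𝒰] fun _ => 0 := by
      have e1 : ∀ᶠ t in (𝒰 : Filter ℂ), h (p a t) k₀ = 1 := hU ((hp a).eventually hk₀)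
      have e2 : ∀ᶠ t in (𝒰 : Filter ℂ), h (q a t) k₀ = 1 := hU ((hq a).eventually hk₀)
      filter_upwards [e1, e2] with t h1 h2
      simp [h1, h2]
    exact tendsto_nhds_unique (h1.congr' h2) tendsto_const_nhds
  -- the linear map
  let T : (κ → ℂ) →ₗ[ℂ] (A → ℂ) :=
    { toFun := fun φ a => ∑ j, φ j * L a j
      map_add' := by
        intro φ ψ; ext a; simp [add_mul, Finset.sum_add_distrib]
      map_smul' := by
        intro c φ; ext a; simp [Finset.mul_sum, mul_assoc] }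
  have hTnot : ¬ Function.Injective T := by
    intro hinj
    have h1 : T (Pi.single k₀ 1) = T 0 := by
      ext a
      simp [T, Pi.single_apply, hL0]
    have h2 := congrFun (hinj h1) k₀
    simp at h2
  have hTsurj : ¬ Function.Surjective T := by
    intro hs
    apply hTnot
    have hfr : Module.finrank ℂ (κ → ℂ) = Module.finrank ℂ (A → ℂ) := by
      simp [hcard]
    exact (LinearMap.injective_iff_surjective_of_finrank_eq_finrank hfr).mpr hs
  obtain ⟨c, hcn⟩ := not_forall.mp hTsurj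
  refine ⟨c, ?_⟩
  rintro F ⟨F', hF⟩ hev
  apply hcn
  refine ⟨fun j => F' (Pi.single j 1), ?_⟩
  ext a
  have hFL : F' (L a) = ∑ j, F' (Pi.single j 1) * L a j := by
    conv_lhs => rw [← Finset.univ_sum_single (L a)]
    rw [map_sum]
    refine Finset.sum_congr rfl fun j _ => ?_
    have : (Pi.single j (L a j) : κ → ℂ) = (L a j) • (Pi.single j (1 : ℂ)) := by
      rw [← Pi.single_smul]; simp
    rw [this, map_smul, smul_eq_mul, mul_comm]
  change ∑ j, F' (Pi.single j 1) * L a j = c a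
  rw [← hFL]
  -- the limit of the quotient, computed in two ways
  have hlim1 : Tendsto (fun t : ℂ => (t ^ k a)⁻¹ *
      (∑ b, c b * m b (p a t) - ∑ b, c b * m b (q a t))) 𝒰 (𝓝 (c a)) := by
    have h1 : Tendsto (fun t : ℂ => ∑ b, c b * ((t ^ k a)⁻¹ * (m b (p a t) - m b (q a t)))) 𝒰
        (𝓝 (∑ b, c b * (if a = b then 1 else 0))) := by
      refine tendsto_finsetSum _ fun b _ => ?_
      exact ((hm a b).mono_left hU).const_mul _
    have h2 : ∑ b, c b * (if a = b then (1 : ℂ) else 0) = c a := by simp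
    rw [h2] at h1
    refine h1.congr fun t => ?_
    rw [← Finset.sum_sub_distrib, Finset.mul_sum]
    refine Finset.sum_congr rfl fun b _ => ?_
    ring
  have hlim2 : Tendsto (fun t : ℂ => (t ^ k a)⁻¹ * (F (h (p a t)) - F (h (q a t)))) 𝒰
      (𝓝 (F' (L a))) := by
    have hhp : Tendsto (fun t => h (p a t)) (𝓝[≠] 0) (𝓝 (h x₀)) := hc.tendsto.comp (hp a)
    have hhq : Tendsto (fun t => h (q a t)) (𝓝[≠] 0) (𝓝 (h x₀)) := hc.tendsto.comp (hq a)
    have h1 : (fun t => F (h (p a t)) - F (h (q a t)) - F' (h (p a t) - h (q a t)))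
        =o[𝓝[≠] 0] (fun t => h (p a t) - h (q a t)) := by
      have := hF.isLittleO
      exact this.comp_tendsto (hhp.prodMk_nhds hhq)
    have h2 := (h1.trans_isBigO (hO a)).mono hU
    have h3 : Tendsto (fun t : ℂ => (F (h (p a t)) - F (h (q a t)) -
        F' (h (p a t) - h (q a t))) / t ^ k a) 𝒰 (𝓝 0) := h2.tendsto_div_nhds_zero
    have h4 : Tendsto (fun t : ℂ => F' ((t ^ k a)⁻¹ • (h (p a t) - h (q a t)))) 𝒰
        (𝓝 (F' (L a))) := (F'.continuous.tendsto _).comp (hL a)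
    have h5 := h3.add h4
    rw [zero_add] at h5
    refine h5.congr fun t => ?_
    rw [map_smul, smul_eq_mul]
    ring
  refine tendsto_nhds_unique (hlim2.congr' ?_) hlim1
  have e1 : ∀ᶠ t in (𝒰 : Filter ℂ), ∑ b, c b * m b (p a t) = F (h (p a t)) :=
    hU ((hp a).eventually hev)
  have e2 : ∀ᶠ t in (𝒰 : Filter ℂ), ∑ b, c b * m b (q a t) = F (h (q a t)) :=
    hU ((hq a).eventually hev)
  filter_upwards [e1, e2] with t h1 h2
  rw [h1, h2]

end Pool.Agent.TH150.Theta
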