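import Mathlib

/-!
# Schwarz lemma on a polydisc, and a linear algebra lemma
-/

set_option autoImplicit false

namespace Pool.Agent.TH150.Theta

open Metric Set Filter Topology Asymptotics

/-- If a function on the polydisc of radius `r` is bounded by `M`, holomorphic in the variables
from `s` and vanishes if one of these variables vanishes, then it is bounded by
`M * ∏ j ∈ s, ‖y j‖ / r`. -/
theorem polydisc_bound {ι : Type*} [DecidableEq ι] (G : (ι → ℂ) → ℂ) (r M : ℝ)
    (s : Finset ι)
    (hb : ∀ y, (∀ i, ‖y i‖ < r) → ‖G y‖ ≤ M)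
    (hd : ∀ y, (∀ i, ‖y i‖ < r) → ∀ j ∈ s,
      DifferentiableOn ℂ (fun z => G (Function.update y j z)) (ball 0 r))
    (h0 : ∀ y, (∀ i, ‖y i‖ < r) → ∀ j ∈ s, y j = 0 → G y = 0) :
    ∀ y, (∀ i, ‖y i‖ < r) → ‖G y‖ ≤ M * ∏ j ∈ s, (‖y j‖ / r) := by
  classical
  induction s using Finset.induction_on with
  | empty => intro y hy; simpa using hb y hy
  | insert j s hj ih =>
    intro y hy
    have ih' := ih (fun y hy j hj => hd y hy j (Finset.mem_insert_of_mem hj))
      (fun y hy j hj => h0 y hy j (Finset.mem_insert_of_mem hj))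
    have hup : ∀ z : ℂ, ‖z‖ < r → ∀ i, ‖Function.update y j z i‖ < r := by
      intro z hz i
      by_cases h : i = j
      · subst h; simpa using hz
      · rw [Function.update_of_ne h]; exact hy i
    have hr : 0 < r := lt_of_le_of_lt (norm_nonneg _) (hy j)
    have hmaps : MapsTo (fun z => G (Function.update y j z)) (ball 0 r)
        (closedBall (G (Function.update y j 0)) (M * ∏ i ∈ s, (‖y i‖ / r))) := by
      intro z hz
      have hz' : ‖z‖ < r := by simpa using hz
      have h0' : G (Function.update y j 0) = 0 :=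
        h0 _ (hup 0 (by simpa using hr)) j (Finset.mem_insert_self _ _) (by simp)
      rw [h0', mem_closedBall, dist_zero_right]
      refine (ih' _ (hup z hz')).trans (le_of_eq ?_)
      congr 1
      refine Finset.prod_congr rfl fun i hi => ?_
      rw [Function.update_of_ne (by rintro rfl; exact hj hi)]
    have h0' : G (Function.update y j 0) = 0 :=
        h0 _ (hup 0 (by simpa using hr)) j (Finset.mem_insert_self _ _) (by simp)
    have := Complex.dist_le_div_mul_dist_of_mapsTo_ball
      (hd y hy j (Finset.mem_insert_self _ _)) hmaps (z := y j) (by simpa using hy j)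
    simp only [Function.update_eq_self, h0', dist_zero_right] at this
    refine this.trans (le_of_eq ?_)
    rw [Finset.prod_insert hj]
    ring

/-- An even holomorphic function satisfies `φ t - φ 0 = O (t ^ 2)`. -/
theorem even_isBigO (φ : ℂ → ℂ) (r : ℝ) (hr : 0 < r) (hd : DifferentiableOn ℂ φ (ball 0 r))
    (he : ∀ z, φ (-z) = φ z) :
    (fun t => φ t - φ 0) =O[𝓝 0] (fun t => t ^ 2) := by
  have h1 : DifferentiableAt ℂ φ 0 := hd.differentiableAt (ball_mem_nhds _ hr)
  have han : AnalyticAt ℂ φ 0 := hd.analyticAt (ball_mem_nhds _ hr)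
  have hder : deriv φ 0 = 0 := by
    have h2 : deriv (fun z => φ (-z)) 0 = - deriv φ (-0) := deriv_comp_neg φ 0
    have h3 : (fun z => φ (-z)) = φ := funext he
    rw [h3, neg_zero] at h2
    have : (2 : ℂ) * deriv φ 0 = 0 := by linear_combination h2
    simpa using this
  have h4 := han.hasFPowerSeriesAt.isBigO_sub_partialSum_pow 2
  have h5 : ∀ t : ℂ, (FormalMultilinearSeries.ofScalars ℂ
      (fun n => iteratedDeriv n φ 0 / (n.factorial : ℂ))).partialSum 2 t = φ 0 := by
    intro t
    simp [FormalMultilinearSeries.partialSum, Finset.sum_range_succ, hder]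
  have h6 : (fun t : ℂ => φ (0 + t) - φ 0) =O[𝓝 0] (fun t => ‖t‖ ^ 2) := by
    refine h4.congr_left ?_
    intro t
    rw [h5]
  have h7 : (fun t : ℂ => φ t - φ 0) =O[𝓝 0] (fun t => ‖t‖ ^ 2) := by simpa using h6
  refine h7.trans ?_
  refine IsBigO.of_bound 1 (Filter.Eventually.of_forall fun t => ?_)
  simp

end Pool.Agent.TH150.Theta
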