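import Pool.Agent.TH150.Theta.Defs
import Pool.Agent.TH150.Theta.Schwarz

/-!
# Cycles and sign changes
-/

set_option autoImplicit false

namespace Pool.Agent.TH150.Theta

open Filter Topology Asymptotics

variable {g : ℕ}

/-- The sign `D i * D j` attached to the unordered pair `{i, j}`. -/
def sgn (D : Fin g → ℤˣ) : Sym2 (Fin g) → ℤˣ :=
  Sym2.lift ⟨fun i j => D i * D j, fun i j => mul_comm _ _⟩

@[simp] theorem sgn_mk (D : Fin g → ℤˣ) (i j : Fin g) : sgn D s(i, j) = D i * D j := rfl

/-- The action of a diagonal sign matrix `D` on symmetric matrices: `x ↦ D x D`. -/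
def act (D : Fin g → ℤˣ) (x : SymSpace g) : SymSpace g := fun e => ((sgn D e : ℤ) : ℂ) * x e

/-- The base point: the matrix `i` times the unit matrix. -/
noncomputable def base (g : ℕ) : SymSpace g :=
  Sym2.lift ⟨fun i j => if i = j then Complex.I else 0, fun i j => by simp [eq_comm]⟩

@[simp] theorem base_mk (i j : Fin g) : base g s(i, j) = if i = j then Complex.I else 0 := rfl

theorem act_base (D : Fin g → ℤˣ) : act D (base g) = base g := by
  ext e
  induction e using Sym2.ind with
  | _ i j =>
    simp only [act, sgn_mk, base_mk]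
    by_cases h : i = j
    · subst h; simp [Int.units_mul_self]
    · simp [h]

/-- The edges of the cycle through the vertices `σ 0, σ 1, …, σ (k - 1)`. -/
def cyc {k : ℕ} (σ : Fin k → Fin g) : Finset (Sym2 (Fin g)) :=
  Finset.univ.image fun j => s(σ j, σ (finRotate k j))

theorem edge_inj {k : ℕ} (hk : k ≠ 2) {σ : Fin k → Fin g} (hσ : Function.Injective σ) :
    Function.Injective fun j => s(σ j, σ (finRotate k j)) := by
  intro j l h
  simp only [Sym2.eq_iff] at h
  rcases h with ⟨h1, -⟩ | ⟨h1, h2⟩
  · exact hσ h1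
  · have h1 := hσ h1
    have h2 := hσ h2
    obtain _ | n := k
    · exact j.elim0
    rw [finRotate_apply] at h1 h2
    subst h1
    by_contra hne
    have h3 : (l + 1 + 1).val = l.val := congrArg Fin.val h2
    rw [Fin.val_add, Fin.val_add] at h3
    have hl := l.isLt
    obtain _ | _ | n := n
    · exact hne (Fin.ext (by omega))
    · exact hk rfl
    · have h1v : ((1 : Fin (n + 1 + 1 + 1)) : ℕ) = 1 := rfl
      rw [h1v] at h3
      rcases Nat.lt_or_ge (l.val + 1) (n + 1 + 1 + 1) with h4 | h4
      · rw [Nat.mod_eq_of_lt h4] at h3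
        rcases Nat.lt_or_ge (l.val + 1 + 1) (n + 1 + 1 + 1) with h5 | h5
        · rw [Nat.mod_eq_of_lt h5] at h3; omega
        · have : l.val + 1 + 1 = n + 1 + 1 + 1 := by omega
          rw [this, Nat.mod_self] at h3; omega
      · have h6 : l.val + 1 = n + 1 + 1 + 1 := by omega
        rw [h6, Nat.mod_self, Nat.mod_eq_of_lt (by omega)] at h3
        omega

theorem card_cyc {k : ℕ} (hk : k ≠ 2) {σ : Fin k → Fin g} (hσ : Function.Injective σ) :
    (cyc σ).card = k := by
  rw [cyc, Finset.card_image_of_injective _ (edge_inj hk hσ), Finset.card_univ, Fintype.card_fin]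

theorem prod_sgn_cyc {k : ℕ} (hk : k ≠ 2) {σ : Fin k → Fin g} (hσ : Function.Injective σ)
    (D : Fin g → ℤˣ) : ∏ e ∈ cyc σ, sgn D e = 1 := by
  rw [cyc, Finset.prod_image (fun a _ b _ h => edge_inj hk hσ h)]
  simp only [sgn_mk]
  rw [Finset.prod_mul_distrib, Equiv.prod_comp (finRotate k) (fun j => D (σ j))]
  exact Int.units_mul_self _

/-- The sets of edges `C` with a marked edge `e₀` such that for each other edge `e` there is a
change of signs which changes the signs of exactly two edges, `e` and `e₀`, and for which all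
changes of signs are even. -/
structure Good (C : Finset (Sym2 (Fin g))) (e₀ : Sym2 (Fin g)) : Prop where
  mem : e₀ ∈ C
  flip : ∀ e ∈ C, e ≠ e₀ → ∃ D : Fin g → ℤˣ, sgn D e = -1 ∧ sgn D e₀ = -1 ∧
    ∀ e' ∈ C, e' ≠ e → e' ≠ e₀ → sgn D e' = 1
  prod : ∀ D : Fin g → ℤˣ, ∏ e ∈ C, sgn D e = 1

theorem good_cyc {n : ℕ} (hn : n ≠ 1) {σ : Fin (n + 1) → Fin g} (hσ : Function.Injective σ) :
    Good (cyc σ) s(σ (Fin.last n), σ 0) := by
  classical
  have hk : n + 1 ≠ 2 := by omega
  refine ⟨?_, ?_, prod_sgn_cyc hk hσ⟩
  · refine Finset.mem_image.mpr ⟨Fin.last n, Finset.mem_univ _, ?_⟩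
    rw [finRotate_last]
  · intro e he hne
    obtain ⟨j, -, rfl⟩ := Finset.mem_image.mp he
    have hj : j ≠ Fin.last n := by
      rintro rfl
      rw [finRotate_last] at hne
      exact hne rfl
    have hjlt : j.val < n := Fin.val_lt_last hj
    -- the sign change: -1 on σ 0, ..., σ j
    let D : Fin g → ℤˣ := fun i => if ∃ l : Fin (n + 1), l ≤ j ∧ σ l = i then -1 else 1
    have hD : ∀ l : Fin (n + 1), D (σ l) = if l ≤ j then -1 else 1 := by
      intro l
      simp only [D]
      by_cases h : l ≤ j
      · rw [if_pos ⟨l, h, rfl⟩, if_pos h]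
      · rw [if_neg h, if_neg]
        rintro ⟨l', hl', h'⟩
        exact h (hσ h' ▸ hl')
    have hrot : ∀ l : Fin (n + 1), l ≠ Fin.last n → ((finRotate (n + 1) l : Fin (n + 1)) : ℕ) = l + 1 := by
      intro l hl
      exact coe_finRotate_of_ne_last hl
    refine ⟨D, ?_, ?_, ?_⟩
    · rw [sgn_mk, hD, hD, if_pos le_rfl, if_neg]
      · simp
      · rw [Fin.le_def, hrot j hj]; omega
    · rw [sgn_mk, hD, hD, if_neg, if_pos]
      · simp
      · exact Fin.zero_le _
      · rw [Fin.le_def, Fin.val_last]; omega
    · intro e' he' hne1 hne2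
      obtain ⟨l, -, rfl⟩ := Finset.mem_image.mp he'
      have hl : l ≠ Fin.last n := by
        rintro rfl
        rw [finRotate_last] at hne2
        exact hne2 rfl
      have hlj : l ≠ j := by rintro rfl; exact hne1 rfl
      rw [sgn_mk, hD, hD]
      have hv : l.val ≠ j.val := fun h => hlj (Fin.ext h)
      by_cases h : l ≤ j
      · rw [if_pos h, if_pos]
        · simp
        · rw [Fin.le_def, hrot l hl]
          rw [Fin.le_def] at h
          omega
      · rw [if_neg h, if_neg]
        · simp
        · rw [Fin.le_def, hrot l hl]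
          rw [Fin.le_def] at h
          omega

/-- The values of a function near `base g` with the changes in the coordinates from `C`. -/
noncomputable def pt (C : Finset (Sym2 (Fin g))) (y : Sym2 (Fin g) → ℂ) : SymSpace g :=
  fun e => base g e + if e ∈ C then y e else 0

theorem pt_update {C : Finset (Sym2 (Fin g))} {j : Sym2 (Fin g)} (hj : j ∈ C)
    (y : Sym2 (Fin g) → ℂ) (z : ℂ) :
    pt C (Function.update y j z) = Function.update (pt C y) j (base g j + z) := by
  classical
  ext e
  by_cases h : e = j
  · subst h; simp [pt, hj]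
  · simp [pt, h]

/-- The change of the sign of one coordinate. -/
noncomputable def neg1 (e₀ : Sym2 (Fin g)) (y : Sym2 (Fin g) → ℂ) : Sym2 (Fin g) → ℂ :=
  fun e => if e = e₀ then - y e else y e

/-- The hypotheses on the functions: bounded by `M` on the polydisc of radius `r` about `base g`,
holomorphic in each variable, invariant under the sign changes. -/
structure Nice (h : SymSpace g → ℂ) (r M : ℝ) : Prop where
  pos : 0 < r
  bound : ∀ x : SymSpace g, (∀ e, ‖x e - base g e‖ < r) → ‖h x‖ ≤ M
  diff : ∀ x : SymSpace g, (∀ e, ‖x e - base g e‖ < r) → ∀ e,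
    DifferentiableOn ℂ (fun z => h (Function.update x e (base g e + z))) (Metric.ball 0 r)
  inv : ∀ (D : Fin g → ℤˣ) (x : SymSpace g), h (act D x) = h x

theorem cycle_bound {h : SymSpace g → ℂ} {r M : ℝ} (hn : Nice h r M)
    {C : Finset (Sym2 (Fin g))} {e₀ : Sym2 (Fin g)} (hC : Good C e₀) :
    (fun t : ℂ => h (pt C fun _ => t) - h (pt C (neg1 e₀ fun _ => t))) =O[𝓝[≠] 0]
      (fun t : ℂ => t ^ C.card) := by
  classical
  have hpt : ∀ y : Sym2 (Fin g) → ℂ, (∀ e, ‖y e‖ < r) → ∀ e, ‖pt C y e - base g e‖ < r := by
    intro y hy e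
    simp only [pt, add_sub_cancel_left]
    split_ifs
    · exact hy e
    · simpa using hn.pos
  have hneg : ∀ y : Sym2 (Fin g) → ℂ, (∀ e, ‖y e‖ < r) → ∀ e, ‖neg1 e₀ y e‖ < r := by
    intro y hy e
    simp only [neg1]
    split_ifs
    · simpa using hy e
    · exact hy e
  have key := polydisc_bound (fun y => h (pt C y) - h (pt C (neg1 e₀ y))) r (2 * M) C ?_ ?_ ?_
  · refine IsBigO.of_bound (2 * M / r ^ C.card) ?_
    have : ∀ᶠ t : ℂ in 𝓝[≠] 0, ‖t‖ < r := by
      refine nhdsWithin_le_nhds ?_
      have := Metric.ball_mem_nhds (0 : ℂ) hn.pos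
      filter_upwards [this] with t ht
      simpa using ht
    filter_upwards [this] with t ht
    refine (key (fun _ => t) (fun _ => ht)).trans (le_of_eq ?_)
    rw [Finset.prod_const, norm_pow, div_pow]
    ring
  · intro y hy
    refine (norm_sub_le _ _).trans ?_
    have h1 := hn.bound _ (hpt y hy)
    have h2 := hn.bound _ (hpt _ (hneg y hy))
    linarith
  · intro y hy j hj
    have e1 : (fun z => h (pt C (Function.update y j z)) - h (pt C (neg1 e₀ (Function.update y j z))))
        = fun z => h (Function.update (pt C y) j (base g j + z)) -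
          h (Function.update (pt C (neg1 e₀ y)) j (base g j + if j = e₀ then -z else z)) := by
      funext z
      rw [pt_update hj]
      congr 2
      rw [← pt_update hj]
      congr 1
      ext e
      by_cases he : e = j
      · subst he; simp [neg1]
      · simp [neg1, he]
    rw [e1]
    refine (hn.diff _ (hpt y hy) j).sub ?_
    by_cases hje : j = e₀
    · simp only [hje, if_true]
      have := (hn.diff _ (hpt _ (hneg y hy)) e₀).comp (differentiableOn_neg (𝕜 := ℂ) (Metric.ball (0:ℂ) r))
        (fun z hz => by simpa using hz)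
      exact this
    · simp only [hje, if_false]
      exact hn.diff _ (hpt _ (hneg y hy)) j
  · intro y hy j hj hyj
    rw [sub_eq_zero]
    by_cases hje : j = e₀
    · congr 2
      ext e
      simp only [neg1]
      split_ifs with he
      · rw [he, ← hje, hyj, neg_zero]
      · rfl
    · obtain ⟨D, hD1, hD2, hD3⟩ := hC.flip j hj hje
      rw [← hn.inv D (pt C y)]
      congr 1
      ext e
      have hb : ((sgn D e : ℤ) : ℂ) * base g e = base g e := congrFun (act_base D) e
      simp only [act, pt, mul_add, hb, neg1]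
      congr 1
      by_cases heC : e ∈ C
      · simp only [heC, if_true]
        by_cases h1 : e = j
        · subst h1; simp [hyj]
        · by_cases h2 : e = e₀
          · subst h2; simp [hD2]
          · rw [hD3 e heC h1 h2]; simp [h2]
      · simp [heC]

theorem even_bound {h : SymSpace g → ℂ} {r M : ℝ} (hn : Nice h r M) {i j : Fin g} (hij : i ≠ j) :
    (fun t : ℂ => h (pt {s(i, j)} fun _ => t) - h (base g)) =O[𝓝[≠] 0] (fun t : ℂ => t ^ 2) := by
  classical
  have hbase : ∀ e, ‖base g e - base g e‖ < r := by intro e; simpa using hn.pos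
  have hup : ∀ t : ℂ, pt {s(i, j)} (fun _ => t) =
      Function.update (base g) s(i, j) (base g s(i, j) + t) := by
    intro t
    ext e
    by_cases he : e = s(i, j)
    · subst he; simp [pt]
    · simp [pt, he]
  have h1 := even_isBigO (fun t => h (pt {s(i, j)} fun _ => t)) r hn.pos (by
    simp only [hup]
    exact hn.diff (base g) hbase s(i, j)) (by
    intro t
    let D : Fin g → ℤˣ := fun l => if l = i then -1 else 1
    rw [← hn.inv D (pt {s(i, j)} fun _ => t)]
    congr 1
    ext e
    have hb : ((sgn D e : ℤ) : ℂ) * base g e = base g e := congrFun (act_base D) e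
    simp only [act, pt, mul_add, hb]
    congr 1
    by_cases he : e = s(i, j)
    · subst he
      have : sgn D s(i, j) = -1 := by simp [D, hij.symm]
      rw [this]; simp
    · simp [he])
  have h2 : h (pt {s(i, j)} fun _ => (0 : ℂ)) = h (base g) := by
    congr 1
    ext e
    simp [pt]
  simp only [h2] at h1
  exact h1.mono nhdsWithin_le_nhds

end Pool.Agent.TH150.Theta
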