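import Mathlib

/-!
# The moduli space `𝒜_g(2,4)` and the theta map

Definitions of the Siegel upper half-space, of the group `Γ_g(2,4)`, of the complex analytic space
`𝒜_g(2,4) = ℋ_g / Γ_g(2,4)` and of the map given by the theta constants of second order.
-/

set_option autoImplicit false

namespace Pool.Agent.TH150.Theta

open Matrix Topology

/-- The complex vector space of symmetric `g × g` matrices, coordinatised by the entries: a
symmetric matrix is a function on the unordered pairs of indices. -/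
abbrev SymSpace (g : ℕ) : Type := Sym2 (Fin g) → ℂ

/-- The symmetric matrix with the entries `x s(i, j)`. -/
def toMat {g : ℕ} (x : SymSpace g) : Matrix (Fin g) (Fin g) ℂ := Matrix.of fun i j => x s(i, j)

/-- The Siegel upper half-space `ℋ_g`: the complex symmetric `g × g` matrices with positive definite
imaginary part, as an (open) subset of the space of symmetric matrices. -/
def siegelSet (g : ℕ) : Set (SymSpace g) := {x | ((toMat x).map Complex.im).PosDef}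

/-- The Siegel upper half-space `ℋ_g` as a topological space. -/
abbrev Siegel (g : ℕ) : Type := siegelSet g

/-- The group `Γ_g(2,4)`: the matrices `γ = (a b; c d)` in `Sp(2g, ℤ)` with `γ ≡ 1 mod 2` and
`diag (aᵗ b) ≡ diag (cᵗ d) ≡ 0 mod 4`. -/
def Gamma24 (g : ℕ) : Set (Matrix (Fin g ⊕ Fin g) (Fin g ⊕ Fin g) ℤ) :=
  {M | M ∈ Matrix.symplecticGroup (Fin g) ℤ ∧
    (∀ i j, M i j ≡ (1 : Matrix (Fin g ⊕ Fin g) (Fin g ⊕ Fin g) ℤ) i j [ZMOD 2]) ∧
    (∀ i, (M.toBlocks₁₁ᵀ * M.toBlocks₁₂) i i ≡ 0 [ZMOD 4]) ∧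
    (∀ i, (M.toBlocks₂₁ᵀ * M.toBlocks₂₂) i i ≡ 0 [ZMOD 4])}

/-- The complex matrix `(a τ + b) (c τ + d)⁻¹` for `M = (a b; c d)`. -/
noncomputable def moebius {g : ℕ} (M : Matrix (Fin g ⊕ Fin g) (Fin g ⊕ Fin g) ℤ)
    (τ : Matrix (Fin g) (Fin g) ℂ) : Matrix (Fin g) (Fin g) ℂ :=
  (M.toBlocks₁₁.map (Int.cast : ℤ → ℂ) * τ + M.toBlocks₁₂.map (Int.cast : ℤ → ℂ)) *
    (M.toBlocks₂₁.map (Int.cast : ℤ → ℂ) * τ + M.toBlocks₂₂.map (Int.cast : ℤ → ℂ))⁻¹

/-- Two points `τ`, `τ'` of `ℋ_g` are related if `τ' = γ τ` for some `γ` in `Γ_g(2,4)`. -/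
def Rel {g : ℕ} (τ τ' : Siegel g) : Prop :=
  ∃ M ∈ Gamma24 g, toMat τ'.1 = moebius M (toMat τ.1)

/-- The space `𝒜_g(2,4) = ℋ_g / Γ_g(2,4)`. -/
def A24 (g : ℕ) : Type := Quot (Rel (g := g))

/-- The quotient topology on `𝒜_g(2,4)`. -/
instance (g : ℕ) : TopologicalSpace (A24 g) := inferInstanceAs (TopologicalSpace (Quot _))

/-- The projection `ℋ_g → 𝒜_g(2,4)`. -/
def proj {g : ℕ} (τ : Siegel g) : A24 g := Quot.mk _ τ

/-- The function `f` on `𝒜_g(2,4)` is holomorphic on the (open) subset `W`: the pull-back of `f` to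
`ℋ_g` is holomorphic at all points of the preimage of `W`, i.e. near each such point it agrees with
a complex analytic function of the entries of the matrix. -/
def HolOn {g : ℕ} (W : Set (A24 g)) (f : A24 g → ℂ) : Prop :=
  ∀ τ : Siegel g, proj τ ∈ W → ∃ G : SymSpace g → ℂ, AnalyticAt ℂ G τ.1 ∧
    ∀ᶠ σ : Siegel g in 𝓝 τ, f (proj σ) = G σ.1

/-- The theta function with characteristic
`θ[ε, δ](τ, z) = ∑ exp (π i (n + ε)ᵗ (τ (n + ε) + 2 (z + δ)))`. -/
noncomputable def theta {g : ℕ} (ε δ : Fin g → ℝ) (τ : Matrix (Fin g) (Fin g) ℂ)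
    (z : Fin g → ℂ) : ℂ :=
  ∑' n : Fin g → ℤ, Complex.exp (Real.pi * Complex.I *
    ((fun i => (n i : ℂ) + (ε i : ℂ)) ⬝ᵥ
      (τ *ᵥ (fun i => (n i : ℂ) + (ε i : ℂ)) + (2 : ℂ) • (z + fun i => (δ i : ℂ)))))

/-- The vector `(Θ[ε](τ))` of the `2 ^ g` theta constants of second order
`Θ[ε](τ) = θ[ε, 0](2 τ, 0)`. The classes `ε` in `(1/2) ℤ^g / ℤ^g` are represented by the vectors
`ε = e / 2` with `e` in `{0, 1}^g`. -/
noncomputable def thetaVec {g : ℕ} (τ : Siegel g) : (Fin g → Fin 2) → ℂ :=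
  fun e => theta (fun i => ((e i : ℕ) : ℝ) / 2) 0 ((2 : ℂ) • toMat τ.1) 0

end Pool.Agent.TH150.Theta
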