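import Pool.Agent.TH150.Theta.Group

/-!
# The group `Γ_g(2,4)` and the equivalence relation on the Siegel upper half-space
-/

set_option autoImplicit false

namespace Pool.Agent.TH150.Theta

open Matrix Topology ComplexOrder

variable {g : ℕ}

theorem toMat_symm (x : SymSpace g) : (toMat x)ᵀ = toMat x := by
  ext i j
  simp only [toMat, transpose_apply, of_apply, Sym2.eq_swap]

theorem toMat_injective : Function.Injective (toMat (g := g)) := by
  intro x y h
  ext e
  induction e using Sym2.ind with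
  | _ i j => exact congrFun (congrFun h i) j

/-- The coordinates of a symmetric matrix. -/
noncomputable def ofMat (τ : Matrix (Fin g) (Fin g) ℂ) : SymSpace g :=
  fun e => τ e.out.1 e.out.2

theorem toMat_ofMat {τ : Matrix (Fin g) (Fin g) ℂ} (hτ : τᵀ = τ) : toMat (ofMat τ) = τ := by
  ext i j
  simp only [toMat, ofMat, of_apply]
  have h : s((s(i, j) : Sym2 (Fin g)).out.1, (s(i, j) : Sym2 (Fin g)).out.2) = s(i, j) :=
    Quot.out_eq _
  rcases Sym2.eq_iff.mp h with ⟨h1, h2⟩ | ⟨h1, h2⟩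
  · rw [h1, h2]
  · rw [h1, h2]; exact congrFun (congrFun hτ i) j

/-! ### The congruence conditions -/

theorem sum_modEq_single {ι : Type*} [Fintype ι] [DecidableEq ι] (f : ι → ℤ) (i : ι) (n : ℤ)
    (h : ∀ k, k ≠ i → f k ≡ 0 [ZMOD n]) : ∑ k, f k ≡ f i [ZMOD n] := by
  rw [← Finset.add_sum_erase _ _ (Finset.mem_univ i)]
  have : ∑ k ∈ Finset.univ.erase i, f k ≡ 0 [ZMOD n] := by
    rw [Int.modEq_zero_iff_dvd]
    refine Finset.dvd_sum fun k hk => ?_
    exact Int.modEq_zero_iff_dvd.mp (h k (Finset.ne_of_mem_erase hk))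
  simpa using this.add_left (f i)

theorem mul_modEq_four {a b : ℤ} (ha : a ≡ 0 [ZMOD 2]) (hb : b ≡ 0 [ZMOD 2]) :
    a * b ≡ 0 [ZMOD 4] := by
  rw [Int.modEq_zero_iff_dvd] at *
  exact mul_dvd_mul ha hb

theorem mul_modEq_four' {a b : ℤ} (ha : a ≡ 1 [ZMOD 2]) (hb : b ≡ 0 [ZMOD 2]) :
    a * b ≡ b [ZMOD 4] := by
  have h := mul_modEq_four (a := a - 1) (by simpa using ha.sub_right 1) hb
  have := h.add_right b
  simpa [sub_mul] using this

/-- Congruence to the unit matrix modulo two, in terms of the blocks. -/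
theorem congr_blocks {M : Big g} (h : ∀ i j, M i j ≡ (1 : Big g) i j [ZMOD 2]) :
    (∀ i, M.toBlocks₁₁ i i ≡ 1 [ZMOD 2]) ∧ (∀ i j, i ≠ j → M.toBlocks₁₁ i j ≡ 0 [ZMOD 2]) ∧
    (∀ i j, M.toBlocks₁₂ i j ≡ 0 [ZMOD 2]) ∧ (∀ i j, M.toBlocks₂₁ i j ≡ 0 [ZMOD 2]) ∧
    (∀ i, M.toBlocks₂₂ i i ≡ 1 [ZMOD 2]) ∧ (∀ i j, i ≠ j → M.toBlocks₂₂ i j ≡ 0 [ZMOD 2]) := by
  refine ⟨fun i => ?_, fun i j hij => ?_, fun i j => ?_, fun i j => ?_, fun i => ?_,
    fun i j hij => ?_⟩
  · have := h (Sum.inl i) (Sum.inl i)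
    simp only [Matrix.one_apply_eq] at this
    exact this
  · have := h (Sum.inl i) (Sum.inl j)
    rw [Matrix.one_apply_ne (by simpa using hij)] at this
    exact this
  · have := h (Sum.inl i) (Sum.inr j)
    rw [Matrix.one_apply_ne (by simp)] at this
    exact this
  · have := h (Sum.inr i) (Sum.inl j)
    rw [Matrix.one_apply_ne (by simp)] at this
    exact this
  · have := h (Sum.inr i) (Sum.inr i)
    simp only [Matrix.one_apply_eq] at this
    exact this
  · have := h (Sum.inr i) (Sum.inr j)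
    rw [Matrix.one_apply_ne (by simpa using hij)] at this
    exact this

theorem diag_ab {M : Big g} (h : ∀ i j, M i j ≡ (1 : Big g) i j [ZMOD 2]) (i : Fin g) :
    (M.toBlocks₁₁ᵀ * M.toBlocks₁₂) i i ≡ M.toBlocks₁₂ i i [ZMOD 4] := by
  obtain ⟨h1, h2, h3, -, -, -⟩ := congr_blocks h
  rw [Matrix.mul_apply]
  refine (sum_modEq_single _ i 4 fun k hk => ?_).trans ?_
  · exact mul_modEq_four (h2 k i hk) (h3 k i)
  · exact mul_modEq_four' (h1 i) (h3 i i)

theorem diag_cd {M : Big g} (h : ∀ i j, M i j ≡ (1 : Big g) i j [ZMOD 2]) (i : Fin g) :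
    (M.toBlocks₂₁ᵀ * M.toBlocks₂₂) i i ≡ M.toBlocks₂₁ i i [ZMOD 4] := by
  obtain ⟨-, -, -, h3, h1, h2⟩ := congr_blocks h
  rw [Matrix.mul_apply]
  refine (sum_modEq_single _ i 4 fun k hk => ?_).trans ?_
  · rw [mul_comm]; exact mul_modEq_four (h2 k i hk) (h3 k i)
  · rw [mul_comm]; exact mul_modEq_four' (h1 i) (h3 i i)

theorem mem_Gamma24_iff {M : Big g} : M ∈ Gamma24 g ↔ M ∈ Matrix.symplecticGroup (Fin g) ℤ ∧
    (∀ i j, M i j ≡ (1 : Big g) i j [ZMOD 2]) ∧ (∀ i, M.toBlocks₁₂ i i ≡ 0 [ZMOD 4]) ∧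
    (∀ i, M.toBlocks₂₁ i i ≡ 0 [ZMOD 4]) := by
  constructor
  · rintro ⟨h1, h2, h3, h4⟩
    exact ⟨h1, h2, fun i => (diag_ab h2 i).symm.trans (h3 i),
      fun i => (diag_cd h2 i).symm.trans (h4 i)⟩
  · rintro ⟨h1, h2, h3, h4⟩
    exact ⟨h1, h2, fun i => (diag_ab h2 i).trans (h3 i), fun i => (diag_cd h2 i).trans (h4 i)⟩

theorem one_mem_Gamma24 : (1 : Big g) ∈ Gamma24 g := by
  rw [mem_Gamma24_iff]
  refine ⟨one_mem _, fun i j => rfl, fun i => ?_, fun i => ?_⟩
  · rw [← fromBlocks_one, toBlocks_fromBlocks₁₂]; rfl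
  · rw [← fromBlocks_one, toBlocks_fromBlocks₂₁]; rfl

theorem mul_mem_Gamma24 {N M : Big g} (hN : N ∈ Gamma24 g) (hM : M ∈ Gamma24 g) :
    N * M ∈ Gamma24 g := by
  rw [mem_Gamma24_iff] at *
  obtain ⟨n1, n2, n3, n4⟩ := hN
  obtain ⟨m1, m2, m3, m4⟩ := hM
  obtain ⟨na1, na2, nb, nc, nd1, nd2⟩ := congr_blocks n2
  obtain ⟨ma1, ma2, mb, mc, md1, md2⟩ := congr_blocks m2
  obtain ⟨-, e2, e3, -⟩ := mul_blocks N M
  refine ⟨mul_mem n1 m1, fun i j => ?_, fun i => ?_, fun i => ?_⟩
  · rw [Matrix.mul_apply]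
    have h1 : ∑ k, N i k * M k j ≡ ∑ k, (1 : Big g) i k * (1 : Big g) k j [ZMOD 2] :=
      Int.ModEq.sum fun k _ => (n2 i k).mul (m2 k j)
    have h2 : ∑ k, (1 : Big g) i k * (1 : Big g) k j = (1 : Big g) i j := by
      rw [← Matrix.mul_apply, Matrix.one_mul]
    rw [h2] at h1
    exact h1
  · rw [e2, Matrix.add_apply, Matrix.mul_apply, Matrix.mul_apply]
    have h1 : ∑ k, N.toBlocks₁₁ i k * M.toBlocks₁₂ k i ≡ 0 [ZMOD 4] := by
      refine (sum_modEq_single _ i 4 fun k hk => ?_).trans ?_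
      · exact mul_modEq_four (na2 i k hk.symm) (mb k i)
      · exact (mul_modEq_four' (na1 i) (mb i i)).trans (m3 i)
    have h2 : ∑ k, N.toBlocks₁₂ i k * M.toBlocks₂₂ k i ≡ 0 [ZMOD 4] := by
      refine (sum_modEq_single _ i 4 fun k hk => ?_).trans ?_
      · exact mul_modEq_four (nb i k) (md2 k i hk)
      · rw [mul_comm]; exact (mul_modEq_four' (md1 i) (nb i i)).trans (n3 i)
    simpa using h1.add h2
  · rw [e3, Matrix.add_apply, Matrix.mul_apply, Matrix.mul_apply]
    have h1 : ∑ k, N.toBlocks₂₁ i k * M.toBlocks₁₁ k i ≡ 0 [ZMOD 4] := by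
      refine (sum_modEq_single _ i 4 fun k hk => ?_).trans ?_
      · exact mul_modEq_four (nc i k) (ma2 k i hk)
      · rw [mul_comm]; exact (mul_modEq_four' (ma1 i) (nc i i)).trans (n4 i)
    have h2 : ∑ k, N.toBlocks₂₂ i k * M.toBlocks₂₁ k i ≡ 0 [ZMOD 4] := by
      refine (sum_modEq_single _ i 4 fun k hk => ?_).trans ?_
      · exact mul_modEq_four (nd2 i k hk.symm) (mc k i)
      · exact (mul_modEq_four' (nd1 i) (mc i i)).trans (m4 i)
    simpa using h1.add h2

/-- The inverse of a symplectic matrix. -/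
def symInv (M : Big g) : Big g :=
  fromBlocks M.toBlocks₂₂ᵀ (-M.toBlocks₁₂ᵀ) (-M.toBlocks₂₁ᵀ) M.toBlocks₁₁ᵀ

theorem symInv_mul {M : Big g} (hM : M ∈ Matrix.symplecticGroup (Fin g) ℤ) : symInv M * M = 1 := by
  obtain ⟨h1, h2, h3⟩ := sympl_int hM
  have h4 : M.toBlocks₂₂ᵀ * M.toBlocks₁₁ - M.toBlocks₁₂ᵀ * M.toBlocks₂₁ = 1 := by
    have := congrArg transpose h3
    simpa using this
  conv_lhs => rw [← fromBlocks_toBlocks M]
  rw [symInv]
  simp only [toBlocks_fromBlocks₁₁, toBlocks_fromBlocks₁₂, toBlocks_fromBlocks₂₁,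
    toBlocks_fromBlocks₂₂, fromBlocks_multiply, Matrix.neg_mul, ← sub_eq_add_neg, h4]
  rw [← fromBlocks_one]
  congr 1
  · rw [h2, sub_self]
  · rw [h1, neg_add_cancel]
  · rw [neg_add_eq_sub, h3]

theorem symInv_mem {M : Big g} (hM : M ∈ Gamma24 g) : symInv M ∈ Gamma24 g := by
  rw [mem_Gamma24_iff] at *
  obtain ⟨m1, m2, m3, m4⟩ := hM
  obtain ⟨ma1, ma2, mb, mc, md1, md2⟩ := congr_blocks m2
  refine ⟨?_, ?_, ?_, ?_⟩
  · have ht := SymplecticGroup.transpose_mem m1
    obtain ⟨h1, h2, h3⟩ := sympl_int ht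
    have e11 : Mᵀ.toBlocks₁₁ = M.toBlocks₁₁ᵀ := rfl
    have e12 : Mᵀ.toBlocks₁₂ = M.toBlocks₂₁ᵀ := rfl
    have e21 : Mᵀ.toBlocks₂₁ = M.toBlocks₁₂ᵀ := rfl
    have e22 : Mᵀ.toBlocks₂₂ = M.toBlocks₂₂ᵀ := rfl
    rw [e11, e21] at h1
    rw [e12, e22] at h2
    rw [e11, e22, e12, e21] at h3
    simp only [transpose_transpose] at h1 h2 h3
    rw [symInv, SymplecticGroup.fromBlocks_mem_iff]
    refine ⟨?_, ?_, ?_⟩
    · simp only [transpose_neg, transpose_transpose, Matrix.mul_neg, Matrix.neg_mul, h2]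
    · simp only [transpose_neg, transpose_transpose, Matrix.mul_neg, Matrix.neg_mul, h1]
    · simp only [transpose_neg, transpose_transpose, Matrix.mul_neg, Matrix.neg_mul, neg_neg]
      have := congrArg transpose h3
      simpa using this
  · intro i j
    rcases i with i | i <;> rcases j with j | j
    · simp only [symInv, fromBlocks_apply₁₁, transpose_apply]
      by_cases h : i = j
      · subst h; simpa using md1 i
      · have := md2 j i (Ne.symm h)
        simpa [Matrix.one_apply, h] using this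
    · simp only [symInv, fromBlocks_apply₁₂, Matrix.neg_apply, transpose_apply]
      have := (mb j i).neg
      simpa [Matrix.one_apply] using this
    · simp only [symInv, fromBlocks_apply₂₁, Matrix.neg_apply, transpose_apply]
      have := (mc j i).neg
      simpa [Matrix.one_apply] using this
    · simp only [symInv, fromBlocks_apply₂₂, transpose_apply]
      by_cases h : i = j
      · subst h; simpa using ma1 i
      · have := ma2 j i (Ne.symm h)
        simpa [Matrix.one_apply, h] using this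
  · intro i
    have := (m3 i).neg
    simpa [symInv] using this
  · intro i
    have := (m4 i).neg
    simpa [symInv] using this

/-! ### The equivalence relation -/

theorem rel_refl (τ : Siegel g) : Rel τ τ := ⟨1, one_mem_Gamma24, (moebius_one _).symm⟩

theorem rel_symm {τ τ' : Siegel g} (h : Rel τ τ') : Rel τ' τ := by
  obtain ⟨M, hM, h⟩ := h
  refine ⟨symInv M, symInv_mem hM, ?_⟩
  rw [h, moebius_mul _ _ (isUnit_bY hM.1 (toMat_symm _) τ.2), symInv_mul hM.1, moebius_one]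

theorem rel_trans {τ τ' τ'' : Siegel g} (h : Rel τ τ') (h' : Rel τ' τ'') : Rel τ τ'' := by
  obtain ⟨M, hM, h⟩ := h
  obtain ⟨N, hN, h'⟩ := h'
  refine ⟨N * M, mul_mem_Gamma24 hN hM, ?_⟩
  rw [h', h, moebius_mul _ _ (isUnit_bY hM.1 (toMat_symm _) τ.2)]

theorem rel_equivalence : Equivalence (Rel (g := g)) := ⟨rel_refl, rel_symm, rel_trans⟩

theorem proj_eq_iff {τ τ' : Siegel g} : proj τ = proj τ' ↔ Rel τ τ' := by
  constructor
  · intro h
    exact (rel_equivalence.eqvGen_iff).mp (Quot.eqvGen_exact h)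
  · intro h
    exact Quot.sound h

/-- The action on points. -/
noncomputable def move (M : Big g) (hM : M ∈ Gamma24 g) (τ : Siegel g) : Siegel g :=
  ⟨ofMat (moebius M (toMat τ.1)), by
    have h := moebius_symm hM.1 (toMat_symm τ.1) τ.2
    change ((toMat (ofMat (moebius M (toMat τ.1)))).map Complex.im).PosDef
    rw [toMat_ofMat h]
    exact moebius_pos hM.1 (toMat_symm τ.1) τ.2⟩

theorem toMat_move (M : Big g) (hM : M ∈ Gamma24 g) (τ : Siegel g) :
    toMat (move M hM τ).1 = moebius M (toMat τ.1) :=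
  toMat_ofMat (moebius_symm hM.1 (toMat_symm τ.1) τ.2)

theorem rel_move (M : Big g) (hM : M ∈ Gamma24 g) (τ : Siegel g) : Rel τ (move M hM τ) :=
  ⟨M, hM, toMat_move M hM τ⟩

/-! ### Analyticity -/

theorem analyticAt_det {E : Type*} [NormedAddCommGroup E] [NormedSpace ℂ E]
    {N : E → Matrix (Fin g) (Fin g) ℂ} {x : E} (h : ∀ i j, AnalyticAt ℂ (fun y => N y i j) x) :
    AnalyticAt ℂ (fun y => (N y).det) x := by
  simp only [Matrix.det_apply']
  refine Finset.analyticAt_fun_sum _ fun σ _ => analyticAt_const.mul ?_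
  exact Finset.analyticAt_fun_prod _ fun i _ => h _ _

theorem analyticAt_adjugate {E : Type*} [NormedAddCommGroup E] [NormedSpace ℂ E]
    {N : E → Matrix (Fin g) (Fin g) ℂ} {x : E} (h : ∀ i j, AnalyticAt ℂ (fun y => N y i j) x)
    (i j : Fin g) : AnalyticAt ℂ (fun y => (N y).adjugate i j) x := by
  simp only [Matrix.adjugate_apply]
  refine analyticAt_det fun k l => ?_
  by_cases hk : k = j
  · subst hk
    simp only [Matrix.updateRow_self]
    exact analyticAt_const
  · simp only [Matrix.updateRow_ne hk]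
    exact h k l

theorem analyticAt_moebius (M : Big g) {x : SymSpace g} (hx : IsUnit (bY M (toMat x)))
    (i j : Fin g) : AnalyticAt ℂ (fun y : SymSpace g => moebius M (toMat y) i j) x := by
  have hcoord : ∀ i j, AnalyticAt ℂ (fun y : SymSpace g => toMat y i j) x := by
    intro i j
    exact (ContinuousLinearMap.proj (R := ℂ) (φ := fun _ : Sym2 (Fin g) => ℂ) s(i, j)).analyticAt x
  have hX : ∀ i j, AnalyticAt ℂ (fun y : SymSpace g => bX M (toMat y) i j) x := by
    intro i j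
    simp only [bX, Matrix.add_apply, Matrix.mul_apply]
    exact (Finset.analyticAt_fun_sum _ fun k _ => analyticAt_const.mul (hcoord _ _)).add
      analyticAt_const
  have hY : ∀ i j, AnalyticAt ℂ (fun y : SymSpace g => bY M (toMat y) i j) x := by
    intro i j
    simp only [bY, Matrix.add_apply, Matrix.mul_apply]
    exact (Finset.analyticAt_fun_sum _ fun k _ => analyticAt_const.mul (hcoord _ _)).add
      analyticAt_const
  have hdet : (bY M (toMat x)).det ≠ 0 := ((Matrix.isUnit_iff_isUnit_det _).mp hx).ne_zero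
  simp only [moebius_eq, Matrix.mul_apply, Matrix.inv_def, Matrix.smul_apply, smul_eq_mul,
    Ring.inverse_eq_inv']
  refine Finset.analyticAt_fun_sum _ fun k _ => (hX i k).mul ?_
  exact ((analyticAt_det hY).inv hdet).mul (analyticAt_adjugate hY _ _)

/-- The action on the ambient space. -/
noncomputable def moveS (M : Big g) (x : SymSpace g) : SymSpace g := ofMat (moebius M (toMat x))

theorem analyticAt_moveS (M : Big g) {x : SymSpace g} (hx : IsUnit (bY M (toMat x))) :
    AnalyticAt ℂ (moveS M) x := by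
  rw [analyticAt_pi_iff]
  intro e
  exact analyticAt_moebius M hx _ _

theorem move_val (M : Big g) (hM : M ∈ Gamma24 g) (τ : Siegel g) :
    (move M hM τ).1 = moveS M τ.1 := rfl

theorem continuous_move (M : Big g) (hM : M ∈ Gamma24 g) : Continuous (move M hM) := by
  rw [continuous_iff_continuousAt]
  intro τ
  rw [Topology.IsInducing.subtypeVal.continuousAt_iff]
  exact ((analyticAt_moveS M (isUnit_bY hM.1 (toMat_symm _) τ.2)).continuousAt).comp
    continuous_subtype_val.continuousAt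

end Pool.Agent.TH150.Theta
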