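import Pool.Agent.TH150.Theta.Defs

/-!
# The action of the symplectic group on the Siegel upper half-space
-/

set_option autoImplicit false

namespace Pool.Agent.TH150.Theta

open Matrix Topology ComplexOrder

variable {g : ℕ}

/-- Block matrices with complex entries. -/
abbrev Big (g : ℕ) : Type := Matrix (Fin g ⊕ Fin g) (Fin g ⊕ Fin g) ℤ

noncomputable def bA (M : Big g) : Matrix (Fin g) (Fin g) ℂ := M.toBlocks₁₁.map (Int.cast : ℤ → ℂ)
noncomputable def bB (M : Big g) : Matrix (Fin g) (Fin g) ℂ := M.toBlocks₁₂.map (Int.cast : ℤ → ℂ)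
noncomputable def bC (M : Big g) : Matrix (Fin g) (Fin g) ℂ := M.toBlocks₂₁.map (Int.cast : ℤ → ℂ)
noncomputable def bD (M : Big g) : Matrix (Fin g) (Fin g) ℂ := M.toBlocks₂₂.map (Int.cast : ℤ → ℂ)

noncomputable def bX (M : Big g) (τ : Matrix (Fin g) (Fin g) ℂ) : Matrix (Fin g) (Fin g) ℂ :=
  bA M * τ + bB M
noncomputable def bY (M : Big g) (τ : Matrix (Fin g) (Fin g) ℂ) : Matrix (Fin g) (Fin g) ℂ :=
  bC M * τ + bD M

theorem moebius_eq (M : Big g) (τ : Matrix (Fin g) (Fin g) ℂ) :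
    moebius M τ = bX M τ * (bY M τ)⁻¹ := rfl

theorem map_mul_int (P Q : Matrix (Fin g) (Fin g) ℤ) :
    (P * Q).map (Int.cast : ℤ → ℂ) = P.map Int.cast * Q.map Int.cast :=
  Matrix.map_mul (f := Int.castRingHom ℂ)

theorem map_add_int (P Q : Matrix (Fin g) (Fin g) ℤ) :
    (P + Q).map (Int.cast : ℤ → ℂ) = P.map Int.cast + Q.map Int.cast := by
  ext i j; simp

theorem mul_blocks (N M : Big g) :
    (N * M).toBlocks₁₁ = N.toBlocks₁₁ * M.toBlocks₁₁ + N.toBlocks₁₂ * M.toBlocks₂₁ ∧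
    (N * M).toBlocks₁₂ = N.toBlocks₁₁ * M.toBlocks₁₂ + N.toBlocks₁₂ * M.toBlocks₂₂ ∧
    (N * M).toBlocks₂₁ = N.toBlocks₂₁ * M.toBlocks₁₁ + N.toBlocks₂₂ * M.toBlocks₂₁ ∧
    (N * M).toBlocks₂₂ = N.toBlocks₂₁ * M.toBlocks₁₂ + N.toBlocks₂₂ * M.toBlocks₂₂ := by
  have h : N * M = fromBlocks (N.toBlocks₁₁ * M.toBlocks₁₁ + N.toBlocks₁₂ * M.toBlocks₂₁)
      (N.toBlocks₁₁ * M.toBlocks₁₂ + N.toBlocks₁₂ * M.toBlocks₂₂)
      (N.toBlocks₂₁ * M.toBlocks₁₁ + N.toBlocks₂₂ * M.toBlocks₂₁)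
      (N.toBlocks₂₁ * M.toBlocks₁₂ + N.toBlocks₂₂ * M.toBlocks₂₂) := by
    rw [← fromBlocks_multiply, fromBlocks_toBlocks, fromBlocks_toBlocks]
  rw [h]
  simp

theorem bX_mul (N M : Big g) (τ : Matrix (Fin g) (Fin g) ℂ) :
    bX (N * M) τ = bA N * bX M τ + bB N * bY M τ := by
  obtain ⟨h1, h2, -, -⟩ := mul_blocks N M
  simp only [bX, bY, bA, bB, bC, bD, h1, h2, map_add_int, map_mul_int]
  simp only [Matrix.mul_add, Matrix.add_mul, Matrix.mul_assoc]
  abel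

theorem bY_mul (N M : Big g) (τ : Matrix (Fin g) (Fin g) ℂ) :
    bY (N * M) τ = bC N * bX M τ + bD N * bY M τ := by
  obtain ⟨-, -, h3, h4⟩ := mul_blocks N M
  simp only [bX, bY, bA, bB, bC, bD, h3, h4, map_add_int, map_mul_int]
  simp only [Matrix.mul_add, Matrix.add_mul, Matrix.mul_assoc]
  abel

theorem moebius_mul (N M : Big g) {τ : Matrix (Fin g) (Fin g) ℂ} (h : IsUnit (bY M τ)) :
    moebius N (moebius M τ) = moebius (N * M) τ := by
  have hdet : IsUnit (bY M τ).det := (Matrix.isUnit_iff_isUnit_det _).mp h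
  have e1 : bX N (moebius M τ) = bX (N * M) τ * (bY M τ)⁻¹ := by
    rw [bX_mul, moebius_eq, bX, Matrix.add_mul, Matrix.mul_assoc, Matrix.mul_assoc (bB N),
      Matrix.mul_nonsing_inv _ hdet, Matrix.mul_one]
  have e2 : bY N (moebius M τ) = bY (N * M) τ * (bY M τ)⁻¹ := by
    rw [bY_mul, moebius_eq, bY, Matrix.add_mul, Matrix.mul_assoc, Matrix.mul_assoc (bD N),
      Matrix.mul_nonsing_inv _ hdet, Matrix.mul_one]
  rw [moebius_eq N, e1, e2, Matrix.mul_inv_rev, Matrix.nonsing_inv_nonsing_inv _ hdet,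
    Matrix.mul_assoc, ← Matrix.mul_assoc _ (bY M τ), Matrix.nonsing_inv_mul _ hdet, Matrix.one_mul,
    moebius_eq]

theorem moebius_one (τ : Matrix (Fin g) (Fin g) ℂ) : moebius 1 τ = τ := by
  have h1 : (1 : Big g).toBlocks₁₁ = 1 := by rw [← fromBlocks_one, toBlocks_fromBlocks₁₁]
  have h2 : (1 : Big g).toBlocks₁₂ = 0 := by rw [← fromBlocks_one, toBlocks_fromBlocks₁₂]
  have h3 : (1 : Big g).toBlocks₂₁ = 0 := by rw [← fromBlocks_one, toBlocks_fromBlocks₂₁]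
  have h4 : (1 : Big g).toBlocks₂₂ = 1 := by rw [← fromBlocks_one, toBlocks_fromBlocks₂₂]
  have e1 : (1 : Matrix (Fin g) (Fin g) ℤ).map (Int.cast : ℤ → ℂ) = 1 := by
    ext i j; simp [Matrix.one_apply]
  have e0 : (0 : Matrix (Fin g) (Fin g) ℤ).map (Int.cast : ℤ → ℂ) = 0 := by
    ext i j; simp
  rw [moebius_eq, bX, bY, bA, bB, bC, bD, h1, h2, h3, h4, e1, e0]
  simp

/-! ### The symplectic relations -/

theorem sympl_int {M : Big g} (hM : M ∈ Matrix.symplecticGroup (Fin g) ℤ) :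
    M.toBlocks₁₁ᵀ * M.toBlocks₂₁ = M.toBlocks₂₁ᵀ * M.toBlocks₁₁ ∧
    M.toBlocks₁₂ᵀ * M.toBlocks₂₂ = M.toBlocks₂₂ᵀ * M.toBlocks₁₂ ∧
    M.toBlocks₁₁ᵀ * M.toBlocks₂₂ - M.toBlocks₂₁ᵀ * M.toBlocks₁₂ = 1 := by
  rw [← fromBlocks_toBlocks M] at hM
  exact SymplecticGroup.fromBlocks_mem_iff.mp hM

theorem sympl_complex {M : Big g} (hM : M ∈ Matrix.symplecticGroup (Fin g) ℤ) :
    (bA M)ᵀ * bC M = (bC M)ᵀ * bA M ∧ (bB M)ᵀ * bD M = (bD M)ᵀ * bB M ∧
    (bA M)ᵀ * bD M - (bC M)ᵀ * bB M = 1 := by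
  obtain ⟨h1, h2, h3⟩ := sympl_int hM
  refine ⟨?_, ?_, ?_⟩
  · have := congrArg (fun P : Matrix (Fin g) (Fin g) ℤ => P.map (Int.cast : ℤ → ℂ)) h1
    simp only [map_mul_int, transpose_map] at this
    exact this
  · have := congrArg (fun P : Matrix (Fin g) (Fin g) ℤ => P.map (Int.cast : ℤ → ℂ)) h2
    simp only [map_mul_int, transpose_map] at this
    exact this
  · have := congrArg (fun P : Matrix (Fin g) (Fin g) ℤ => P.map (Int.cast : ℤ → ℂ)) h3
    have e : ∀ P Q : Matrix (Fin g) (Fin g) ℤ, (P - Q).map (Int.cast : ℤ → ℂ) =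
      P.map Int.cast - Q.map Int.cast := by intro P Q; ext i j; simp
    have e1 : (1 : Matrix (Fin g) (Fin g) ℤ).map (Int.cast : ℤ → ℂ) = 1 := by
      ext i j; simp [Matrix.one_apply]
    simp only [e, map_mul_int, transpose_map, e1] at this
    exact this

theorem conj_int (P : Matrix (Fin g) (Fin g) ℤ) :
    (P.map (Int.cast : ℤ → ℂ))ᴴ = (P.map (Int.cast : ℤ → ℂ))ᵀ := by
  ext i j; simp

/-- `Yᴴ X - Xᴴ Y = τ - τᴴ`. -/
theorem herm_rel {M : Big g} (hM : M ∈ Matrix.symplecticGroup (Fin g) ℤ)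
    (τ : Matrix (Fin g) (Fin g) ℂ) :
    (bY M τ)ᴴ * bX M τ - (bX M τ)ᴴ * bY M τ = τ - τᴴ := by
  obtain ⟨h1, h2, h3⟩ := sympl_complex hM
  have h4 : (bD M)ᵀ * bA M - (bB M)ᵀ * bC M = 1 := by
    have := congrArg transpose h3
    simpa using this
  have c1 : (bA M)ᴴ = (bA M)ᵀ := conj_int _
  have c2 : (bB M)ᴴ = (bB M)ᵀ := conj_int _
  have c3 : (bC M)ᴴ = (bC M)ᵀ := conj_int _
  have c4 : (bD M)ᴴ = (bD M)ᵀ := conj_int _
  simp only [bX, bY, conjTranspose_add, conjTranspose_mul, c1, c2, c3, c4]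
  have e : (τᴴ * (bC M)ᵀ + (bD M)ᵀ) * (bA M * τ + bB M) -
      (τᴴ * (bA M)ᵀ + (bB M)ᵀ) * (bC M * τ + bD M) =
      τᴴ * ((bC M)ᵀ * bA M - (bA M)ᵀ * bC M) * τ - τᴴ * ((bA M)ᵀ * bD M - (bC M)ᵀ * bB M) +
      ((bD M)ᵀ * bA M - (bB M)ᵀ * bC M) * τ + ((bD M)ᵀ * bB M - (bB M)ᵀ * bD M) := by
    noncomm_ring
  rw [e, h1, h2, h3, h4]
  simp only [sub_self, Matrix.mul_zero, Matrix.zero_mul, Matrix.mul_one, Matrix.one_mul, add_zero,
    zero_sub]
  abel

/-- `Xᵀ Y = Yᵀ X` for symmetric `τ`. -/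
theorem symm_rel {M : Big g} (hM : M ∈ Matrix.symplecticGroup (Fin g) ℤ)
    {τ : Matrix (Fin g) (Fin g) ℂ} (hτ : τᵀ = τ) :
    (bX M τ)ᵀ * bY M τ = (bY M τ)ᵀ * bX M τ := by
  obtain ⟨h1, h2, h3⟩ := sympl_complex hM
  have h4 : (bD M)ᵀ * bA M - (bB M)ᵀ * bC M = 1 := by
    have := congrArg transpose h3
    simpa using this
  simp only [bX, bY, transpose_add, transpose_mul, hτ]
  have e : (τ * (bA M)ᵀ + (bB M)ᵀ) * (bC M * τ + bD M) -
      (τ * (bC M)ᵀ + (bD M)ᵀ) * (bA M * τ + bB M) =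
      τ * ((bA M)ᵀ * bC M - (bC M)ᵀ * bA M) * τ + τ * ((bA M)ᵀ * bD M - (bC M)ᵀ * bB M) -
      ((bD M)ᵀ * bA M - (bB M)ᵀ * bC M) * τ + ((bB M)ᵀ * bD M - (bD M)ᵀ * bB M) := by
    noncomm_ring
  rw [← sub_eq_zero, e, h1, h2, h3, h4]
  simp

/-! ### Positivity -/

theorem posDef_complex {P : Matrix (Fin g) (Fin g) ℝ} (hP : P.PosDef) :
    (P.map (Complex.ofReal : ℝ → ℂ)).PosDef := by
  have hsymm : ∀ i j, P i j = P j i := by
    intro i j
    have := hP.1.apply i j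
    simpa using this.symm
  refine Matrix.PosDef.of_dotProduct_mulVec_pos ?_ ?_
  · ext i j
    simp [hsymm i j]
  · intro x hx
    set u : Fin g → ℝ := fun i => (x i).re with hu
    set w : Fin g → ℝ := fun i => (x i).im with hw
    have key : star x ⬝ᵥ (P.map (Complex.ofReal : ℝ → ℂ) *ᵥ x) =
        ((u ⬝ᵥ (P *ᵥ u) + w ⬝ᵥ (P *ᵥ w) : ℝ) : ℂ) := by
      have e1 : star x ⬝ᵥ (P.map (Complex.ofReal : ℝ → ℂ) *ᵥ x) =
          ∑ i, ∑ j, (P i j : ℂ) * (((u i : ℂ) - (w i : ℂ) * Complex.I) *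
            ((u j : ℂ) + (w j : ℂ) * Complex.I)) := by
        simp only [dotProduct, mulVec, Pi.star_apply, Matrix.map_apply, Finset.mul_sum]
        refine Finset.sum_congr rfl fun i _ => Finset.sum_congr rfl fun j _ => ?_
        have h1 : star (x i) = (u i : ℂ) - (w i : ℂ) * Complex.I := by
          apply Complex.ext <;> simp [hu, hw]
        have h2 : x j = (u j : ℂ) + (w j : ℂ) * Complex.I := by
          apply Complex.ext <;> simp [hu, hw]
        rw [h1]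
        conv_lhs => rw [h2]
        ring
      have e2 : ∑ i, ∑ j, (P i j : ℂ) * ((u i : ℂ) * (w j : ℂ)) =
          ∑ i, ∑ j, (P i j : ℂ) * ((w i : ℂ) * (u j : ℂ)) := by
        rw [Finset.sum_comm]
        refine Finset.sum_congr rfl fun i _ => Finset.sum_congr rfl fun j _ => ?_
        rw [hsymm j i]; ring
      have e3 : ∑ i, ∑ j, (P i j : ℂ) * (((u i : ℂ) - (w i : ℂ) * Complex.I) *
            ((u j : ℂ) + (w j : ℂ) * Complex.I)) =
          (∑ i, ∑ j, (P i j : ℂ) * ((u i : ℂ) * (u j : ℂ))) +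
          (∑ i, ∑ j, (P i j : ℂ) * ((w i : ℂ) * (w j : ℂ))) +
          ((∑ i, ∑ j, (P i j : ℂ) * ((u i : ℂ) * (w j : ℂ))) -
          ∑ i, ∑ j, (P i j : ℂ) * ((w i : ℂ) * (u j : ℂ))) * Complex.I := by
        simp only [Finset.sum_mul, sub_mul, ← Finset.sum_add_distrib, ← Finset.sum_sub_distrib]
        refine Finset.sum_congr rfl fun i _ => Finset.sum_congr rfl fun j _ => ?_
        linear_combination (-(P i j : ℂ) * (w i : ℂ) * (w j : ℂ)) * Complex.I_sq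
      rw [e1, e3, e2, sub_self, zero_mul, add_zero]
      simp only [dotProduct, mulVec, Finset.mul_sum]
      push_cast
      congr 1 <;>
      exact Finset.sum_congr rfl fun i _ => Finset.sum_congr rfl fun j _ => by ring
    rw [key]
    have h0 : 0 < u ⬝ᵥ (P *ᵥ u) + w ⬝ᵥ (P *ᵥ w) := by
      have hu0 : 0 ≤ u ⬝ᵥ (P *ᵥ u) := by
        simpa using hP.posSemidef.dotProduct_mulVec_nonneg u
      have hw0 : 0 ≤ w ⬝ᵥ (P *ᵥ w) := by
        simpa using hP.posSemidef.dotProduct_mulVec_nonneg w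
      by_cases hu1 : u = 0
      · have hw1 : w ≠ 0 := by
          intro h
          apply hx
          ext i
          apply Complex.ext
          · exact congrFun hu1 i
          · exact congrFun h i
        have := hP.dotProduct_mulVec_pos hw1
        simp only [star_trivial] at this
        linarith
      · have := hP.dotProduct_mulVec_pos hu1
        simp only [star_trivial] at this
        linarith
    exact_mod_cast h0

theorem posDef_real {P : Matrix (Fin g) (Fin g) ℝ} (hP : (P.map (Complex.ofReal : ℝ → ℂ)).PosDef) :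
    P.PosDef := by
  refine Matrix.PosDef.of_dotProduct_mulVec_pos ?_ ?_
  · ext i j
    have := hP.1.apply i j
    simp only [Matrix.map_apply, RCLike.star_def, Complex.conj_ofReal] at this
    simpa using Complex.ofReal_injective this
  · intro x hx
    have hx' : (fun i => (x i : ℂ)) ≠ 0 := by
      intro h
      apply hx
      ext i
      have := congrFun h i
      simpa using this
    have h1 := hP.dotProduct_mulVec_pos hx'
    have h2 : star (fun i => (x i : ℂ)) ⬝ᵥ (P.map (Complex.ofReal : ℝ → ℂ) *ᵥ fun i => (x i : ℂ)) =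
        ((star x ⬝ᵥ (P *ᵥ x) : ℝ) : ℂ) := by
      simp [dotProduct, mulVec]
    rw [h2] at h1
    exact_mod_cast h1

theorem sub_conjTranspose {τ : Matrix (Fin g) (Fin g) ℂ} (hτ : τᵀ = τ) :
    τ - τᴴ = (2 * Complex.I) • (τ.map Complex.im).map (Complex.ofReal : ℝ → ℂ) := by
  ext i j
  have h : τ j i = τ i j := congrFun (congrFun hτ i) j
  simp only [Matrix.sub_apply, conjTranspose_apply, h, RCLike.star_def, Matrix.smul_apply,
    Matrix.map_apply, smul_eq_mul]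
  apply Complex.ext <;> simp <;> ring

theorem isUnit_bY {M : Big g} (hM : M ∈ Matrix.symplecticGroup (Fin g) ℤ)
    {τ : Matrix (Fin g) (Fin g) ℂ} (hτ : τᵀ = τ) (hpos : (τ.map Complex.im).PosDef) :
    IsUnit (bY M τ) := by
  have hP := posDef_complex hpos
  rw [← Matrix.mulVec_injective_iff_isUnit]
  intro v w hvw
  by_contra hne
  have hz : v - w ≠ 0 := sub_ne_zero.mpr hne
  have hY : bY M τ *ᵥ (v - w) = 0 := by
    rw [Matrix.mulVec_sub, sub_eq_zero]; exact hvw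
  have h1 := herm_rel hM τ
  rw [sub_conjTranspose hτ] at h1
  have h2 := congrArg (fun Q : Matrix (Fin g) (Fin g) ℂ => star (v - w) ⬝ᵥ (Q *ᵥ (v - w))) h1
  simp only [Matrix.sub_mulVec, ← Matrix.mulVec_mulVec, hY, Matrix.mulVec_zero, sub_zero,
    Matrix.smul_mulVec, dotProduct_smul] at h2
  have h3 : star (v - w) ⬝ᵥ ((bY M τ)ᴴ *ᵥ (bX M τ *ᵥ (v - w))) = 0 := by
    rw [dotProduct_mulVec, ← star_mulVec, hY, star_zero, zero_dotProduct]
  rw [h3] at h2
  have h4 := hP.dotProduct_mulVec_pos hz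
  have h5 : (2 * Complex.I : ℂ) ≠ 0 := by simp
  have h6 := (smul_eq_zero.mp h2.symm).resolve_left h5
  rw [h6] at h4
  exact lt_irrefl _ h4

theorem moebius_symm {M : Big g} (hM : M ∈ Matrix.symplecticGroup (Fin g) ℤ)
    {τ : Matrix (Fin g) (Fin g) ℂ} (hτ : τᵀ = τ) (hpos : (τ.map Complex.im).PosDef) :
    (moebius M τ)ᵀ = moebius M τ := by
  have hu := isUnit_bY hM hτ hpos
  have hdet : IsUnit (bY M τ).det := (Matrix.isUnit_iff_isUnit_det _).mp hu
  have hdet' : IsUnit (bY M τ)ᵀ.det := by rwa [det_transpose]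
  have h := symm_rel hM hτ
  rw [moebius_eq, transpose_mul, transpose_nonsing_inv]
  calc ((bY M τ)ᵀ)⁻¹ * (bX M τ)ᵀ = ((bY M τ)ᵀ)⁻¹ * ((bX M τ)ᵀ * bY M τ) * (bY M τ)⁻¹ := by
        rw [Matrix.mul_assoc, Matrix.mul_assoc, Matrix.mul_nonsing_inv _ hdet, Matrix.mul_one]
    _ = ((bY M τ)ᵀ)⁻¹ * ((bY M τ)ᵀ * bX M τ) * (bY M τ)⁻¹ := by rw [h]
    _ = bX M τ * (bY M τ)⁻¹ := by
        rw [← Matrix.mul_assoc, Matrix.nonsing_inv_mul _ hdet', Matrix.one_mul]

/-- `Yᴴ (γτ - (γτ)ᴴ) Y = τ - τᴴ`. -/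
theorem moebius_herm {M : Big g} (hM : M ∈ Matrix.symplecticGroup (Fin g) ℤ)
    {τ : Matrix (Fin g) (Fin g) ℂ} (hτ : τᵀ = τ) (hpos : (τ.map Complex.im).PosDef) :
    (bY M τ)ᴴ * (moebius M τ - (moebius M τ)ᴴ) * bY M τ = τ - τᴴ := by
  have hu := isUnit_bY hM hτ hpos
  have hdet : IsUnit (bY M τ).det := (Matrix.isUnit_iff_isUnit_det _).mp hu
  have hX : moebius M τ * bY M τ = bX M τ := by
    rw [moebius_eq, Matrix.mul_assoc, Matrix.nonsing_inv_mul _ hdet, Matrix.mul_one]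
  have hX' : (bY M τ)ᴴ * (moebius M τ)ᴴ = (bX M τ)ᴴ := by
    rw [← conjTranspose_mul, hX]
  rw [Matrix.mul_sub, Matrix.sub_mul, hX', Matrix.mul_assoc, hX]
  exact herm_rel hM τ

/-- `Yᴴ Im(γτ) Y = Im τ`. -/
theorem moebius_im {M : Big g} (hM : M ∈ Matrix.symplecticGroup (Fin g) ℤ)
    {τ : Matrix (Fin g) (Fin g) ℂ} (hτ : τᵀ = τ) (hpos : (τ.map Complex.im).PosDef) :
    (bY M τ)ᴴ * ((moebius M τ).map Complex.im).map (Complex.ofReal : ℝ → ℂ) * bY M τ =
      (τ.map Complex.im).map (Complex.ofReal : ℝ → ℂ) := by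
  have h := moebius_herm hM hτ hpos
  rw [sub_conjTranspose hτ, sub_conjTranspose (moebius_symm hM hτ hpos)] at h
  have h5 : (2 * Complex.I : ℂ) ≠ 0 := by simp
  rw [Matrix.mul_smul, Matrix.smul_mul] at h
  exact smul_right_injective _ h5 h

theorem moebius_pos {M : Big g} (hM : M ∈ Matrix.symplecticGroup (Fin g) ℤ)
    {τ : Matrix (Fin g) (Fin g) ℂ} (hτ : τᵀ = τ) (hpos : (τ.map Complex.im).PosDef) :
    ((moebius M τ).map Complex.im).PosDef := by
  apply posDef_real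
  have hu := isUnit_bY hM hτ hpos
  have hdet : IsUnit (bY M τ).det := (Matrix.isUnit_iff_isUnit_det _).mp hu
  have hdet' : IsUnit (bY M τ)ᴴ.det := by
    rw [det_conjTranspose]; exact hdet.star
  have h := moebius_im hM hτ hpos
  set Q := ((moebius M τ).map Complex.im).map (Complex.ofReal : ℝ → ℂ) with hQ
  have h1 : Q = ((bY M τ)⁻¹)ᴴ * ((τ.map Complex.im).map (Complex.ofReal : ℝ → ℂ)) * (bY M τ)⁻¹ := by
    rw [← h, conjTranspose_nonsing_inv]
    rw [Matrix.mul_assoc, Matrix.mul_assoc, Matrix.mul_assoc, Matrix.mul_nonsing_inv _ hdet,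
      Matrix.mul_one, ← Matrix.mul_assoc, Matrix.nonsing_inv_mul _ hdet', Matrix.one_mul]
  rw [h1]
  refine (posDef_complex hpos).conjTranspose_mul_mul_same ?_
  intro v w hvw
  have := congrArg (fun u => bY M τ *ᵥ u) hvw
  simpa [Matrix.mulVec_mulVec, Matrix.mul_nonsing_inv _ hdet] using this

end Pool.Agent.TH150.Theta
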