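import Pool.Agent.TH150.Theta.Gamma
import Pool.Agent.TH150.Theta.Cycles

/-!
# The action of `Γ_g(2,4)` near the base point
-/

set_option autoImplicit false

namespace Pool.Agent.TH150.Theta

open Matrix Topology ComplexOrder

variable {g : ℕ}

/-- The size of the slice. -/
noncomputable def del (g : ℕ) : ℝ := 1 / (100 * (g + 1) ^ 3)

theorem del_pos (g : ℕ) : 0 < del g := by unfold del; positivity

theorem del_bounds (g : ℕ) : del g ≤ 1 / 100 ∧ g * del g ≤ 1 / 100 ∧ g * (g * del g) ≤ 1 / 100 := by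
  have hg : (0 : ℝ) ≤ g := Nat.cast_nonneg g
  have h1 : (1 : ℝ) ≤ (g + 1) ^ 3 := by
    have : (1 : ℝ) ≤ g + 1 := by linarith
    exact one_le_pow₀ this
  have h2 : (g : ℝ) ≤ (g + 1) ^ 3 := by nlinarith [sq_nonneg (g : ℝ), pow_nonneg hg 3]
  have h3 : (g : ℝ) * g ≤ (g + 1) ^ 3 := by nlinarith [sq_nonneg (g : ℝ), pow_nonneg hg 3]
  have hpos : (0 : ℝ) < 100 * (g + 1) ^ 3 := by positivity
  unfold del
  refine ⟨?_, ?_, ?_⟩
  · rw [div_le_div_iff₀ hpos (by norm_num)]; linarith
  · rw [mul_one_div, div_le_div_iff₀ hpos (by norm_num)]; linarith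
  · rw [mul_one_div, mul_div_assoc', div_le_div_iff₀ hpos (by norm_num)]; linarith

theorem sum_norm_sq_le (f : Fin g → ℝ) : (∑ i, |f i|) ^ 2 ≤ g * ∑ i, f i ^ 2 := by
  have := sq_sum_le_card_mul_sum_sq (s := (Finset.univ : Finset (Fin g))) (f := fun i => |f i|)
  simpa using this

/-- The estimate for the columns of `Y`. -/
theorem column_bound {δ : ℝ} {P' : Matrix (Fin g) (Fin g) ℝ}
    (hP' : ∀ k l, |P' k l - (if k = l then 1 else 0)| ≤ δ) (Y : Matrix (Fin g) (Fin g) ℂ)
    (j : Fin g) (p : ℝ)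
    (h : (Yᴴ * P'.map (Complex.ofReal : ℝ → ℂ) * Y) j j = (p : ℂ)) :
    (1 - g * δ) * ∑ k, ‖Y k j‖ ^ 2 ≤ p := by
  have h1 : p = ∑ l, ∑ k, P' k l * ((starRingEnd ℂ) (Y k j) * Y l j).re := by
    have h2 := congrArg Complex.re h
    rw [Complex.ofReal_re] at h2
    rw [← h2]
    simp only [Matrix.mul_apply, conjTranspose_apply, Matrix.map_apply, Finset.sum_mul,
      Complex.re_sum]
    refine Finset.sum_congr rfl fun l _ => Finset.sum_congr rfl fun k _ => ?_
    have : star (Y k j) * (P' k l : ℂ) * Y l j = (P' k l : ℂ) * ((starRingEnd ℂ) (Y k j) * Y l j) := by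
      rw [RCLike.star_def]; ring
    rw [this, Complex.re_ofReal_mul]
  have h3 : ∑ l, ∑ k, P' k l * ((starRingEnd ℂ) (Y k j) * Y l j).re =
      ∑ k, ‖Y k j‖ ^ 2 +
      ∑ l, ∑ k, (P' k l - (if k = l then 1 else 0)) * ((starRingEnd ℂ) (Y k j) * Y l j).re := by
    rw [← Finset.sum_add_distrib]
    refine Finset.sum_congr rfl fun l _ => ?_
    have : ∀ k, P' k l * ((starRingEnd ℂ) (Y k j) * Y l j).re =
        (if k = l then ((starRingEnd ℂ) (Y k j) * Y l j).re else 0) +
        (P' k l - (if k = l then 1 else 0)) * ((starRingEnd ℂ) (Y k j) * Y l j).re := by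
      intro k
      split_ifs <;> ring
    rw [Finset.sum_congr rfl fun k _ => this k, Finset.sum_add_distrib, Finset.sum_ite_eq']
    simp only [Finset.mem_univ, if_true]
    congr 1
    rw [← Complex.normSq_eq_conj_mul_self, Complex.ofReal_re, Complex.normSq_eq_norm_sq]
  have h4 : |∑ l, ∑ k, (P' k l - (if k = l then 1 else 0)) * ((starRingEnd ℂ) (Y k j) * Y l j).re| ≤
      δ * (∑ k, ‖Y k j‖) ^ 2 := by
    calc |∑ l, ∑ k, (P' k l - (if k = l then 1 else 0)) * ((starRingEnd ℂ) (Y k j) * Y l j).re|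
        ≤ ∑ l, ∑ k, δ * (‖Y k j‖ * ‖Y l j‖) := by
          refine (Finset.abs_sum_le_sum_abs _ _).trans (Finset.sum_le_sum fun l _ => ?_)
          refine (Finset.abs_sum_le_sum_abs _ _).trans (Finset.sum_le_sum fun k _ => ?_)
          rw [abs_mul]
          refine mul_le_mul (hP' k l) ?_ (abs_nonneg _) ((abs_nonneg _).trans (hP' k l))
          refine (Complex.abs_re_le_norm _).trans ?_
          rw [norm_mul, RCLike.norm_conj]
      _ = δ * (∑ k, ‖Y k j‖) ^ 2 := by
          rw [pow_two, Finset.sum_mul_sum, Finset.mul_sum, Finset.sum_comm]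
          refine Finset.sum_congr rfl fun i _ => ?_
          rw [Finset.mul_sum]
  rcases isEmpty_or_nonempty (Fin g) with he | ⟨⟨k₀⟩⟩
  · exact (IsEmpty.false j).elim
  have hδ : 0 ≤ δ := (abs_nonneg _).trans (hP' k₀ k₀)
  have h5 : (∑ k, ‖Y k j‖) ^ 2 ≤ g * ∑ k, ‖Y k j‖ ^ 2 := by
    have := sum_norm_sq_le (fun k => ‖Y k j‖)
    simpa using this
  have h6 := abs_le.mp (h4.trans (mul_le_mul_of_nonneg_left h5 hδ))
  rw [h1, h3]
  nlinarith [h6.1]

theorem slice {τ τ' : Siegel g} (hτ : ∀ e, ‖τ.1 e - base g e‖ < del g)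
    (hτ' : ∀ e, ‖τ'.1 e - base g e‖ < del g) (h : Rel τ τ') :
    ∃ D : Fin g → ℤˣ, τ'.1 = act D τ.1 := by
  obtain ⟨M, hM, hMτ⟩ := h
  obtain ⟨b1, b2, b3⟩ := del_bounds g
  have hδ := del_pos g
  set δ := del g with hδdef
  set A := M.toBlocks₁₁ with hA
  set B := M.toBlocks₁₂ with hB
  set C := M.toBlocks₂₁ with hC
  set D := M.toBlocks₂₂ with hD
  set Y := bY M (toMat τ.1) with hY
  have hunit := isUnit_bY hM.1 (toMat_symm τ.1) τ.2
  have hdet : IsUnit Y.det := (Matrix.isUnit_iff_isUnit_det _).mp hunit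
  have him := moebius_im hM.1 (toMat_symm τ.1) τ.2
  rw [← hMτ, ← hY] at him
  -- the matrices are close to the base point
  have hclose : ∀ x : SymSpace g, (∀ e, ‖x e - base g e‖ < δ) → ∀ k l,
      |((toMat x).map Complex.im) k l - (if k = l then 1 else 0)| ≤ δ := by
    intro x hx k l
    have h1 : ((toMat x).map Complex.im) k l - (if k = l then 1 else 0) =
        (x s(k, l) - base g s(k, l)).im := by
      rw [base_mk]
      simp only [toMat, Matrix.map_apply, of_apply]
      split_ifs <;> simp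
    rw [h1]
    exact (Complex.abs_im_le_norm _).trans (hx _).le
  have hcol : ∀ j, (1 - g * δ) * ∑ k, ‖Y k j‖ ^ 2 ≤ 1 + δ := by
    intro j
    have h1 : (Yᴴ * ((toMat τ'.1).map Complex.im).map (Complex.ofReal : ℝ → ℂ) * Y) j j =
        ((((toMat τ.1).map Complex.im) j j : ℝ) : ℂ) := by
      rw [him]; rfl
    refine (column_bound (hclose τ'.1 hτ') Y j _ h1).trans ?_
    have := (abs_le.mp (hclose τ.1 hτ j j)).2
    simp only [if_true] at this
    linarith
  have hcol' : ∀ j, ∑ k, ‖Y k j‖ ^ 2 ≤ 103 / 100 := by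
    intro j
    have h1 := hcol j
    have h2 : 0 ≤ ∑ k, ‖Y k j‖ ^ 2 := Finset.sum_nonneg fun k _ => sq_nonneg _
    nlinarith
  -- the entries of `Y`
  have hYe : ∀ i j, Y i j = (C i j : ℂ) * Complex.I + (D i j : ℂ) +
      ∑ k, (C i k : ℂ) * (τ.1 s(k, j) - base g s(k, j)) := by
    intro i j
    rw [hY, bY, Matrix.add_apply, Matrix.mul_apply]
    simp only [bC, bD, Matrix.map_apply, toMat, of_apply, ← hC, ← hD]
    have h1 : ∀ k, (C i k : ℂ) * τ.1 s(k, j) = (if k = j then (C i k : ℂ) * Complex.I else 0) +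
        (C i k : ℂ) * (τ.1 s(k, j) - base g s(k, j)) := by
      intro k
      rw [base_mk]
      split_ifs <;> ring
    rw [Finset.sum_congr rfl fun k _ => h1 k, Finset.sum_add_distrib, Finset.sum_ite_eq']
    simp only [Finset.mem_univ, if_true]
    ring
  -- bound for the error term
  have herr : ∀ m : ℝ, (∀ i k, |(C i k : ℝ)| ≤ m) → ∀ i j,
      ‖∑ k, (C i k : ℂ) * (τ.1 s(k, j) - base g s(k, j))‖ ≤ g * δ * m := by
    intro m hm i j
    calc ‖∑ k, (C i k : ℂ) * (τ.1 s(k, j) - base g s(k, j))‖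
        ≤ ∑ _k : Fin g, m * δ := by
          refine (norm_sum_le _ _).trans (Finset.sum_le_sum fun k _ => ?_)
          rw [norm_mul]
          refine mul_le_mul ?_ (hτ _).le (norm_nonneg _) ((abs_nonneg _).trans (hm i k))
          have : ‖(C i k : ℂ)‖ = |(C i k : ℝ)| := by
            rw [← Complex.ofReal_intCast, Complex.norm_real, Real.norm_eq_abs]
          rw [this]; exact hm i k
      _ = g * δ * m := by simp; ring
  have hmain : ∀ i j, ‖(C i j : ℂ) * Complex.I + (D i j : ℂ)‖ ^ 2 = (C i j : ℝ) ^ 2 + (D i j : ℝ) ^ 2 := by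
    intro i j
    rw [← Complex.normSq_eq_norm_sq, Complex.normSq_apply]
    simp
    ring
  rcases isEmpty_or_nonempty (Fin g) with he | hne
  · exact ⟨1, by ext e; induction e using Sym2.ind with | _ i j => exact (IsEmpty.false i).elim⟩
  -- the entries of `C` are bounded by one
  have hC1 : ∀ i k, |(C i k : ℝ)| ≤ 1 := by
    obtain ⟨⟨i₀, j₀⟩, -, hmax⟩ := Finset.exists_max_image (Finset.univ : Finset (Fin g × Fin g))
      (fun p => |(C p.1 p.2 : ℝ)|) Finset.univ_nonempty
    have hmax' : ∀ i k, |(C i k : ℝ)| ≤ |(C i₀ j₀ : ℝ)| := fun i k => hmax (i, k) (Finset.mem_univ _)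
    set m := |(C i₀ j₀ : ℝ)| with hm
    have hm0 : 0 ≤ m := abs_nonneg _
    have h1 : m ≤ ‖(C i₀ j₀ : ℂ) * Complex.I + (D i₀ j₀ : ℂ)‖ := by
      refine abs_le_of_sq_le_sq' ?_ (norm_nonneg _) |>.2
      rw [hmain, hm, sq_abs]
      linarith [sq_nonneg (D i₀ j₀ : ℝ)]
    have h2 : ‖(C i₀ j₀ : ℂ) * Complex.I + (D i₀ j₀ : ℂ)‖ ≤ ‖Y i₀ j₀‖ + g * δ * m := by
      have h3 : (C i₀ j₀ : ℂ) * Complex.I + (D i₀ j₀ : ℂ) = Y i₀ j₀ -
          ∑ k, (C i₀ k : ℂ) * (τ.1 s(k, j₀) - base g s(k, j₀)) := by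
        rw [hYe i₀ j₀]; ring
      rw [h3]
      exact (norm_sub_le _ _).trans (by linarith [herr m hmax' i₀ j₀])
    have h4 : ‖Y i₀ j₀‖ ^ 2 ≤ 103 / 100 :=
      (Finset.single_le_sum (f := fun k => ‖Y k j₀‖ ^ 2) (fun k _ => sq_nonneg _)
        (Finset.mem_univ i₀)).trans (hcol' j₀)
    have h5 : ‖Y i₀ j₀‖ ≤ 102 / 100 := by
      nlinarith [norm_nonneg (Y i₀ j₀)]
    have h6 : m < 2 := by nlinarith
    have h7 : |C i₀ j₀| < 2 := by
      have : ((|C i₀ j₀| : ℤ) : ℝ) < 2 := by rw [Int.cast_abs]; exact h6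
      exact_mod_cast this
    have h8 : |C i₀ j₀| ≤ 1 := by omega
    have h9 : m ≤ 1 := by
      have : ((|C i₀ j₀| : ℤ) : ℝ) ≤ 1 := by exact_mod_cast h8
      rwa [Int.cast_abs] at this
    exact fun i k => (hmax' i k).trans h9
  -- the columns of `(C, D)`
  have hcolint : ∀ j, ∑ i, ((C i j) ^ 2 + (D i j) ^ 2) < 2 := by
    intro j
    have h1 : ∀ i, (C i j : ℝ) ^ 2 + (D i j : ℝ) ^ 2 ≤ ‖Y i j‖ ^ 2 + 3 * (g * δ) := by
      intro i
      have h2 : ‖(C i j : ℂ) * Complex.I + (D i j : ℂ)‖ ≤ ‖Y i j‖ + g * δ * 1 := by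
        have h3 : (C i j : ℂ) * Complex.I + (D i j : ℂ) = Y i j -
            ∑ k, (C i k : ℂ) * (τ.1 s(k, j) - base g s(k, j)) := by
          rw [hYe i j]; ring
        rw [h3]
        exact (norm_sub_le _ _).trans (by linarith [herr 1 hC1 i j])
      have h4 : ‖Y i j‖ ^ 2 ≤ 103 / 100 :=
        (Finset.single_le_sum (f := fun k => ‖Y k j‖ ^ 2) (fun k _ => sq_nonneg _)
          (Finset.mem_univ i)).trans (hcol' j)
      have h5 : ‖Y i j‖ ≤ 102 / 100 := by nlinarith [norm_nonneg (Y i j)]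
      have h6 : 0 ≤ g * δ := by positivity
      rw [← hmain]
      have h7 : ‖(C i j : ℂ) * Complex.I + (D i j : ℂ)‖ ^ 2 ≤ (‖Y i j‖ + g * δ * 1) ^ 2 :=
        pow_le_pow_left₀ (norm_nonneg _) h2 2
      nlinarith
    have h2 : ∑ i, ((C i j : ℝ) ^ 2 + (D i j : ℝ) ^ 2) ≤ 103 / 100 + 3 * (g * (g * δ)) := by
      refine (Finset.sum_le_sum fun i _ => h1 i).trans ?_
      rw [Finset.sum_add_distrib]
      have := hcol' j
      simp only [Finset.sum_const, Finset.card_univ, Fintype.card_fin, nsmul_eq_mul]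
      linarith
    have h3 : ∑ i, ((C i j : ℝ) ^ 2 + (D i j : ℝ) ^ 2) < 2 := by linarith
    exact_mod_cast h3
  obtain ⟨cg1, cg2, cg3, cg4, cg5, cg6⟩ := congr_blocks hM.2.1
  have hDj : ∀ j, 1 ≤ (D j j) ^ 2 := by
    intro j
    have h1 : D j j ≠ 0 := by
      intro h0
      have := cg5 j
      rw [← hD, h0] at this
      exact absurd this (by decide)
    have := sq_pos_of_ne_zero h1 (R := ℤ)
    omega
  have hzero : ∀ j, (∀ i, C i j = 0) ∧ (∀ i, i ≠ j → D i j = 0) ∧ (D j j) ^ 2 = 1 := by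
    intro j
    have h1 := hcolint j
    rw [← Finset.add_sum_erase _ _ (Finset.mem_univ j)] at h1
    have h2 : 0 ≤ ∑ i ∈ Finset.univ.erase j, ((C i j) ^ 2 + (D i j) ^ 2) :=
      Finset.sum_nonneg fun i _ => by positivity
    have h3 := hDj j
    have h4 : 0 ≤ (C j j) ^ 2 := sq_nonneg _
    have h5 : ∑ i ∈ Finset.univ.erase j, ((C i j) ^ 2 + (D i j) ^ 2) = 0 := by omega
    have h6 : (C j j) ^ 2 = 0 := by omega
    have h7 : (D j j) ^ 2 = 1 := by omega
    have h8 := (Finset.sum_eq_zero_iff_of_nonneg (fun i _ => by positivity)).mp h5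
    refine ⟨fun i => ?_, fun i hi => ?_, h7⟩
    · by_cases hij : i = j
      · subst hij; exact pow_eq_zero_iff two_ne_zero |>.mp h6
      · have h9 := h8 i (Finset.mem_erase.mpr ⟨hij, Finset.mem_univ _⟩)
        have h10 : (C i j) ^ 2 = 0 := by nlinarith [sq_nonneg (C i j), sq_nonneg (D i j)]
        exact pow_eq_zero_iff two_ne_zero |>.mp h10
    · have h9 := h8 i (Finset.mem_erase.mpr ⟨hi, Finset.mem_univ _⟩)
      have h10 : (D i j) ^ 2 = 0 := by nlinarith [sq_nonneg (C i j), sq_nonneg (D i j)]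
      exact pow_eq_zero_iff two_ne_zero |>.mp h10
  -- the matrix `A`
  obtain ⟨-, -, hAD⟩ := sympl_int hM.1
  rw [← hA, ← hB, ← hC, ← hD] at hAD
  have hAD' : ∀ i j, A j i * D j j = if i = j then 1 else 0 := by
    intro i j
    have h1 := congrFun (congrFun hAD i) j
    rw [Matrix.sub_apply, Matrix.mul_apply, Matrix.mul_apply] at h1
    have h2 : ∑ k, Cᵀ i k * B k j = 0 := Finset.sum_eq_zero fun k _ => by
      rw [transpose_apply, (hzero i).1 k, zero_mul]
    have h3 : ∑ k, Aᵀ i k * D k j = A j i * D j j := by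
      rw [Finset.sum_eq_single j]
      · rfl
      · intro k _ hk; rw [(hzero j).2.1 k hk, mul_zero]
      · intro h; exact absurd (Finset.mem_univ _) h
    rw [h2, h3, sub_zero, Matrix.one_apply] at h1
    exact h1
  have hDunit : ∀ j, IsUnit (D j j) := by
    intro j
    have := (hzero j).2.2
    exact IsUnit.of_mul_eq_one _ (by rw [← pow_two]; exact this)
  have hAeq : ∀ i j, A i j = if i = j then D j j else 0 := by
    intro i j
    have h1 := hAD' j i
    by_cases hij : i = j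
    · subst hij
      simp only [if_true] at h1 ⊢
      have h2 := (hzero i).2.2
      have : (D i i) * (A i i * D i i) = D i i := by rw [h1, mul_one]
      have h3 : (D i i) * (A i i * D i i) = A i i := by
        calc (D i i) * (A i i * D i i) = A i i * (D i i) ^ 2 := by ring
          _ = A i i := by rw [h2, mul_one]
      rw [← this, h3]
    · rw [if_neg hij]
      rw [if_neg (Ne.symm hij)] at h1
      exact (mul_eq_zero.mp h1).resolve_right (hDunit i).ne_zero
  -- the equation `τ' Y = X`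
  have hXY : toMat τ'.1 * Y = bX M (toMat τ.1) := by
    rw [hMτ, moebius_eq, Matrix.mul_assoc, Matrix.nonsing_inv_mul _ hdet, Matrix.mul_one]
  have hent : ∀ i j, τ'.1 s(i, j) * (D j j : ℂ) = (D i i : ℂ) * τ.1 s(i, j) + (B i j : ℂ) := by
    intro i j
    have h1 := congrFun (congrFun hXY i) j
    have hYd : ∀ k, Y k j = if k = j then (D j j : ℂ) else 0 := by
      intro k
      rw [hYe k j, (hzero j).1 k]
      have : ∑ l, (C k l : ℂ) * (τ.1 s(l, j) - base g s(l, j)) = 0 :=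
        Finset.sum_eq_zero fun l _ => by rw [(hzero l).1 k]; simp
      rw [this]
      by_cases hk : k = j
      · subst hk; simp
      · rw [(hzero j).2.1 k hk, if_neg hk]; simp
    rw [Matrix.mul_apply, Finset.sum_congr rfl fun k _ => by rw [hYd k]] at h1
    rw [bX, Matrix.add_apply, Matrix.mul_apply] at h1
    simp only [mul_ite, mul_zero, Finset.sum_ite_eq', Finset.mem_univ, if_true, bA, bB,
      Matrix.map_apply, ← hA, ← hB, toMat, of_apply] at h1
    rw [h1]
    congr 1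
    rw [Finset.sum_eq_single i]
    · rw [hAeq i i, if_pos rfl]
    · intro k _ hk; rw [hAeq i k, if_neg (Ne.symm hk)]; simp
    · intro h; exact absurd (Finset.mem_univ _) h
  have hre : ∀ x : SymSpace g, (∀ e, ‖x e - base g e‖ < δ) → ∀ i j, |(x s(i, j)).re| < δ := by
    intro x hx i j
    have h1 : (x s(i, j)).re = (x s(i, j) - base g s(i, j)).re := by
      rw [base_mk]; split_ifs <;> simp
    rw [h1]
    exact (Complex.abs_re_le_norm _).trans_lt (hx _)
  have hB0 : ∀ i j, B i j = 0 := by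
    intro i j
    have h1 := congrArg Complex.re (hent i j)
    rw [Complex.add_re, Complex.mul_re, Complex.mul_re] at h1
    simp only [Complex.intCast_re, Complex.intCast_im, mul_zero, zero_mul, sub_zero] at h1
    have h2 := hre τ.1 hτ i j
    have h3 := hre τ'.1 hτ' i j
    have hd : ∀ j, |(D j j : ℝ)| = 1 := by
      intro j
      rcases Int.isUnit_iff.mp (hDunit j) with h | h <;> rw [h] <;> simp
    have h4 : (B i j : ℝ) = (τ'.1 s(i, j)).re * (D j j : ℝ) - (D i i : ℝ) * (τ.1 s(i, j)).re := by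
      linarith
    have h5 : |(B i j : ℝ)| < 1 := by
      rw [h4]
      refine (abs_sub _ _).trans_lt ?_
      rw [abs_mul, abs_mul, hd, hd]
      linarith
    have h6 : |B i j| < 1 := by exact_mod_cast h5
    exact Int.abs_lt_one_iff.mp h6
  -- conclusion
  refine ⟨fun j => (hDunit j).unit, ?_⟩
  ext e
  induction e using Sym2.ind with
  | _ i j =>
    have h1 := hent i j
    rw [hB0 i j, Int.cast_zero, add_zero] at h1
    have h2 : (D j j : ℂ) * (D j j : ℂ) = 1 := by
      have := (hzero j).2.2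
      have h3 : ((D j j ^ 2 : ℤ) : ℂ) = 1 := by rw [this]; simp
      rw [pow_two] at h3
      push_cast at h3
      exact h3
    simp only [act, sgn_mk, Units.val_mul, IsUnit.unit_spec, Int.cast_mul]
    calc τ'.1 s(i, j) = (τ'.1 s(i, j) * (D j j : ℂ)) * (D j j : ℂ) := by
          rw [mul_assoc, h2, mul_one]
      _ = (D i i : ℂ) * (D j j : ℂ) * τ.1 s(i, j) := by rw [h1]; ring

end Pool.Agent.TH150.Theta
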