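import Pool.Agent.TH150.Theta.Map
import Pool.Agent.TH150.Theta.Core
import Pool.Agent.TH150.Theta.Slice

/-!
# The theta map is not an embedding for `g ≥ 4`
-/

set_option autoImplicit false

namespace Pool.Agent.TH150.Theta

open Filter Topology Matrix Asymptotics

variable {g : ℕ}

theorem ball_subset_siegel {x : SymSpace g} (hx : ∀ e, ‖x e - base g e‖ < rad g) :
    x ∈ siegelSet g := by
  change ((toMat x).map Complex.im).PosDef
  refine Matrix.PosDef.of_dotProduct_mulVec_pos ?_ ?_
  · ext i j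
    simp only [toMat, conjTranspose_apply, Matrix.map_apply, of_apply, star_trivial]
    rw [Sym2.eq_swap]
  · intro v hv
    have h1 := quad_lower hx v
    have h2 : star v ⬝ᵥ ((toMat x).map Complex.im *ᵥ v) =
        ∑ i, ∑ j, v i * v j * (x s(i, j)).im := by
      simp only [star_trivial, dotProduct, mulVec, Finset.mul_sum, toMat, Matrix.map_apply,
        of_apply]
      exact Finset.sum_congr rfl fun i _ => Finset.sum_congr rfl fun j _ => by ring
    rw [h2]
    obtain ⟨i, hi⟩ := Function.ne_iff.mp hv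
    have h3 : 0 < ∑ i, v i ^ 2 :=
      Finset.sum_pos' (fun i _ => sq_nonneg _) ⟨i, Finset.mem_univ _, by
        have : v i ≠ 0 := hi
        positivity⟩
    linarith

/-- The base point of the Siegel upper half-space: `i` times the unit matrix. -/
noncomputable def basePt (g : ℕ) : Siegel g :=
  ⟨base g, ball_subset_siegel (fun e => by simpa using rad_pos g)⟩

theorem eventually_siegel {p : SymSpace g → Prop}
    (h : ∀ᶠ σ : Siegel g in 𝓝 (basePt g), p σ.1) : ∀ᶠ x in 𝓝 (base g), p x := by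
  have h1 : siegelSet g ∈ 𝓝 (base g) := by
    filter_upwards [Metric.ball_mem_nhds (base g) (rad_pos g)] with x hx
    exact ball_subset_siegel ((mem_ball_iff (rad_pos g)).mp hx)
  have h2 : ∀ᶠ x in map Subtype.val (𝓝 (basePt g)), p x := h
  rwa [map_nhds_subtype_coe_eq_nhds (basePt g).2 h1] at h2

theorem tendsto_pt {C : Finset (Sym2 (Fin g))} {y : ℂ → Sym2 (Fin g) → ℂ}
    (hy : ∀ t e, ‖y t e‖ ≤ ‖t‖) : Tendsto (fun t => pt C (y t)) (𝓝[≠] 0) (𝓝 (base g)) := by
  rw [tendsto_iff_norm_sub_tendsto_zero]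
  refine squeeze_zero (g := fun t : ℂ => ‖t‖) (fun t => norm_nonneg _) (fun t => ?_) ?_
  · rw [pi_norm_le_iff_of_nonneg (norm_nonneg _)]
    intro e
    simp only [Pi.sub_apply, pt, add_sub_cancel_left]
    split_ifs
    · exact hy t e
    · simp
  · exact (continuous_norm.tendsto' 0 0 norm_zero).mono_left nhdsWithin_le_nhds

theorem tendsto_curveP (hg : 4 ≤ g) (a : Finset (Fin g)) :
    Tendsto (curveP hg a) (𝓝[≠] 0) (𝓝 (base g)) :=
  tendsto_pt (y := fun t _ => t) fun _ _ => le_rfl

theorem tendsto_curveQ (hg : 4 ≤ g) (a : Finset (Fin g)) :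
    Tendsto (curveQ hg a) (𝓝[≠] 0) (𝓝 (base g)) := by
  by_cases ha : a.card = 2
  · have : curveQ hg a = fun _ => base g := by funext t; simp [curveQ, ha]
    rw [this]
    exact tendsto_const_nhds
  · have : curveQ hg a = fun t => pt (edges hg a) (neg1 (marked hg a) fun _ => t) := by
      funext t; simp [curveQ, ha]
    rw [this]
    refine tendsto_pt (y := fun t => neg1 (marked hg a) fun _ => t) fun t e => ?_
    simp only [neg1]
    split_ifs <;> simp

theorem continuousAt_quo : ContinuousAt (quo (g := g)) (base g) := by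
  rw [continuousAt_pi]
  intro e
  exact (continuousAt_Th e).div (continuousAt_Th 0) Th_zero_base

theorem quo_bound (hg : 4 ≤ g) (a : Finset (Fin g)) :
    (fun t : ℂ => quo (curveP hg a t) - quo (curveQ hg a t)) =O[𝓝[≠] 0]
      (fun t : ℂ => t ^ expo a) := by
  rw [isBigO_pi]
  intro e
  obtain ⟨r, -, -, -, hnice⟩ := exists_nice g
  obtain ⟨M, hM⟩ := hnice e
  by_cases ha : a.card = 2
  · obtain ⟨i, j, hij, hE⟩ := edges_two hg ha
    have h1 := even_bound hM hij
    have ha0 : a ≠ ∅ := by rintro rfl; simp at ha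
    simp only [curveP, curveQ, if_pos ha, hE, expo, if_neg ha0, ha, Pi.sub_apply]
    exact h1
  · have h1 := cycle_bound hM (good_marked hg ha)
    simp only [curveP, curveQ, if_neg ha, Pi.sub_apply]
    rw [card_edges hg ha] at h1
    exact h1

/-- There is a combination of the invariant monomials which is not a function of the affine
coordinates. -/
theorem exists_coeff (hg : 4 ≤ g) : ∃ c : Finset (Fin g) → ℂ,
    ∀ F : ((Fin g → Fin 2) → ℂ) → ℂ,
      (∃ F' : ((Fin g → Fin 2) → ℂ) →L[ℂ] ℂ, HasStrictFDerivAt F F' (quo (base g))) →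
      ¬ ∀ᶠ x in 𝓝 (base g), ∑ b, c b * mono hg b x = F (quo x) := by
  refine core (by simp) (base g) quo 0 ?_ continuousAt_quo (curveP hg) (curveQ hg)
    (tendsto_curveP hg) (tendsto_curveQ hg) expo (quo_bound hg) (mono hg) ?_
  · obtain ⟨r, hr, -, hne, -⟩ := exists_nice g
    filter_upwards [Metric.ball_mem_nhds (base g) hr] with x hx
    exact div_self (hne x ((mem_ball_iff hr).mp hx))
  · intro a b
    refine Tendsto.congr' ?_ tendsto_const_nhds
    filter_upwards [eventually_mem_nhdsWithin] with t ht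
    exact (delta hg a b ht).symm

/-- The slice at the base point. -/
def slc (g : ℕ) : Set (Siegel g) := {σ | ∀ e, ‖σ.1 e - base g e‖ < del g}

theorem isOpen_slc (g : ℕ) : IsOpen (slc g) := by
  have : slc g = ⋂ e, {σ : Siegel g | ‖σ.1 e - base g e‖ < del g} := by
    ext σ; simp [slc]
  rw [this]
  refine isOpen_iInter_of_finite fun e => ?_
  refine isOpen_lt ?_ continuous_const
  exact (((continuous_apply e).comp continuous_subtype_val).sub continuous_const).norm

theorem basePt_mem (g : ℕ) : basePt g ∈ slc g := by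
  intro e
  change ‖base g e - base g e‖ < del g
  simpa using del_pos g

/-- The neighbourhood of the base point in the quotient. -/
def nbhd (g : ℕ) : Set (A24 g) := proj '' slc g

theorem isOpen_preimage {U : Set (Siegel g)} (hU : IsOpen U) :
    IsOpen (proj ⁻¹' (proj '' U) : Set (Siegel g)) := by
  rw [isOpen_iff_mem_nhds]
  rintro τ ⟨σ, hσ, hστ⟩
  obtain ⟨M, hM, h⟩ := proj_eq_iff.mp hστ.symm
  have h1 : move M hM τ = σ := by
    apply Subtype.ext
    apply toMat_injective
    rw [toMat_move, h]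
  have h2 : move M hM ⁻¹' U ∈ 𝓝 τ :=
    (continuous_move M hM).continuousAt.preimage_mem_nhds (by rw [h1]; exact hU.mem_nhds hσ)
  filter_upwards [h2] with τ' hτ'
  exact ⟨_, hτ', (proj_eq_iff.mpr (rel_move M hM τ')).symm⟩

theorem isOpen_nbhd (g : ℕ) : IsOpen (nbhd g) := by
  have h : IsOpen (proj ⁻¹' (nbhd g) : Set (Siegel g)) := isOpen_preimage (isOpen_slc g)
  exact isOpen_coinduced.mpr h

open Classical in
/-- The function on the quotient. -/
noncomputable def fA (hg : 4 ≤ g) (c : Finset (Fin g) → ℂ) (y : A24 g) : ℂ :=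
  if h : y ∈ nbhd g then ∑ b, c b * mono hg b h.choose.1 else 0

theorem fA_proj (hg : 4 ≤ g) (c : Finset (Fin g) → ℂ) {σ : Siegel g} (hσ : σ ∈ slc g) :
    fA hg c (proj σ) = ∑ b, c b * mono hg b σ.1 := by
  have h : proj σ ∈ nbhd g := ⟨σ, hσ, rfl⟩
  rw [fA, dif_pos h]
  obtain ⟨h1, h2⟩ := h.choose_spec
  obtain ⟨D, hD⟩ := slice h1 hσ (proj_eq_iff.mp h2)
  rw [hD]
  refine Finset.sum_congr rfl fun b _ => ?_
  rw [mono_act]

theorem holOn_fA (hg : 4 ≤ g) (c : Finset (Fin g) → ℂ) : HolOn (nbhd g) (fA hg c) := by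
  rintro τ ⟨σ, hσ, hστ⟩
  obtain ⟨M, hM, h⟩ := proj_eq_iff.mp hστ.symm
  have h1 : move M hM τ = σ := by
    apply Subtype.ext
    apply toMat_injective
    rw [toMat_move, h]
  refine ⟨fun x => ∑ b, c b * mono hg b (moveS M x), ?_, ?_⟩
  · refine Finset.analyticAt_fun_sum _ fun b _ => analyticAt_const.mul ?_
    exact (analyticAt_mono hg b _).comp (analyticAt_moveS M (isUnit_bY hM.1 (toMat_symm _) τ.2))
  · have h2 : move M hM ⁻¹' slc g ∈ 𝓝 τ :=
      (continuous_move M hM).continuousAt.preimage_mem_nhds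
        (by rw [h1]; exact (isOpen_slc g).mem_nhds hσ)
    filter_upwards [h2] with τ' hτ'
    rw [proj_eq_iff.mpr (rel_move M hM τ'), fA_proj hg c hτ', move_val]

/-- There is a function which is holomorphic near the class of the base point and which is not, near
the base point, the composition of the theta map with a holomorphic function. -/
theorem exists_germ (hg : 4 ≤ g) : ∃ f : A24 g → ℂ, HolOn (nbhd g) f ∧
    ∀ (P : Set (PN g)) (F : PN g → ℂ), IsOpenP P → HolOnP P F → thetaMap (basePt g) ∈ P →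
      ¬ ∀ᶠ σ : Siegel g in 𝓝 (basePt g), f (proj σ) = F (thetaMap σ) := by
  obtain ⟨c, hc⟩ := exists_coeff hg
  refine ⟨fA hg c, holOn_fA hg c, fun P F hP hF hmem hev => ?_⟩
  obtain ⟨r, hr, hrad, hne, -⟩ := exists_nice g
  -- `quo` gives homogeneous coordinates
  have hquo : ∀ σ : Siegel g, (∀ e, ‖σ.1 e - base g e‖ < r) →
      ∃ h : quo σ.1 ≠ 0, Projectivization.mk ℂ (quo σ.1) h = thetaMap σ := by
    intro σ hσ
    have h0 := hne σ.1 hσ
    have h1 : quo σ.1 0 = 1 := div_self h0
    have h2 : quo σ.1 ≠ 0 := by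
      intro h
      rw [h] at h1
      simp at h1
    refine ⟨h2, ?_⟩
    rw [thetaMap, Projectivization.mk_eq_mk_iff']
    refine ⟨(Th 0 σ.1)⁻¹, ?_⟩
    ext e
    simp only [Pi.smul_apply, smul_eq_mul, thetaVec, theta_eq, quo]
    rw [div_eq_inv_mul]
  have hb0 : ∀ e, ‖(basePt g).1 e - base g e‖ < r := by
    intro e
    change ‖base g e - base g e‖ < r
    simpa using hr
  obtain ⟨hq0, hq1⟩ := hquo (basePt g) hb0
  obtain ⟨G, hG, hFG⟩ := hF (quo (base g)) hq0 (by
    have : Projectivization.mk ℂ (quo (base g)) hq0 = thetaMap (basePt g) := hq1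
    rw [this]; exact hmem)
  apply hc G ⟨_, hG.hasStrictFDerivAt⟩
  apply eventually_siegel
  have hcq : ContinuousAt (fun σ : Siegel g => quo σ.1) (basePt g) :=
    ContinuousAt.comp (f := fun σ : Siegel g => σ.1) (g := quo (g := g)) continuousAt_quo
      continuous_subtype_val.continuousAt
  have e1 : ∀ᶠ σ : Siegel g in 𝓝 (basePt g), ∀ hw : quo σ.1 ≠ 0,
      F (Projectivization.mk ℂ (quo σ.1) hw) = G (quo σ.1) := hcq.eventually hFG
  have e2 : ∀ᶠ σ : Siegel g in 𝓝 (basePt g), ∀ e, ‖σ.1 e - base g e‖ < r := by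
    have : Metric.ball (base g) r ∈ 𝓝 (base g) := Metric.ball_mem_nhds _ hr
    have h3 := (continuous_subtype_val (p := fun x => x ∈ siegelSet g)).continuousAt.preimage_mem_nhds
      (x := basePt g) this
    filter_upwards [h3] with σ hσ
    exact (mem_ball_iff hr).mp hσ
  have e3 : ∀ᶠ σ : Siegel g in 𝓝 (basePt g), σ ∈ slc g := (isOpen_slc g).mem_nhds (basePt_mem g)
  filter_upwards [e1, e2, e3, hev] with σ h1 h2 h3 h4
  obtain ⟨hq, hq'⟩ := hquo σ h2
  rw [← fA_proj hg c h3, h4, ← hq', h1 hq]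

theorem continuousAt_thetaMap {P : Set (PN g)} (hP : IsOpenP P) (h : thetaMap (basePt g) ∈ P) :
    ∀ᶠ σ : Siegel g in 𝓝 (basePt g), thetaMap σ ∈ P := by
  have h1 : ContinuousAt (fun σ : Siegel g => thetaVec σ) (basePt g) := by
    rw [continuousAt_pi]
    intro e
    have : (fun σ : Siegel g => thetaVec σ e) = fun σ : Siegel g => Th e σ.1 := by
      funext σ; exact theta_eq e σ.1
    rw [this]
    exact ContinuousAt.comp (f := fun σ : Siegel g => σ.1) (g := Th e) (continuousAt_Th e)
      continuous_subtype_val.continuousAt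
  have h2 := h1.eventually (hP.mem_nhds ⟨thetaVec_ne_zero (basePt g), h⟩)
  filter_upwards [h2] with σ hσ
  exact hσ.2

theorem not_embedding (hg : 4 ≤ g) {W : Set (A24 g)} (hW : IsOpen W)
    (hx : proj (basePt g) ∈ W) : ¬ IsEmbeddingOn W := by
  intro hemb
  obtain ⟨f, hf, hnot⟩ := exists_germ hg
  have hV : IsOpen (W ∩ nbhd g) := hW.inter (isOpen_nbhd g)
  have hxV : proj (basePt g) ∈ W ∩ nbhd g := ⟨hx, _, basePt_mem g, rfl⟩
  have hol : HolOn (W ∩ nbhd g) f := fun τ hτ => hf τ hτ.2
  obtain ⟨P, F, hP, hF, hmem, hfF⟩ :=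
    (hemb.sheaf _ Set.inter_subset_left hV f).mp hol (basePt g) hxV
  refine hnot P F hP hF hmem ?_
  have e4 : ∀ᶠ σ : Siegel g in 𝓝 (basePt g), proj σ ∈ W ∩ nbhd g :=
    (continuous_quot_mk (r := Rel (g := g))).continuousAt.preimage_mem_nhds (hV.mem_nhds hxV)
  filter_upwards [e4, continuousAt_thetaMap hP hmem] with σ h4 h5
  exact hfF σ h4 h5

end Pool.Agent.TH150.Theta
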