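import Pool.Agent.TH150.Theta.Nonvanish

/-!
# The theta map and embeddings of complex analytic spaces
-/

set_option autoImplicit false

namespace Pool.Agent.TH150.Theta

open Topology LinearAlgebra.Projectivization

/-- The projective space `ℙ^(2^g - 1)`, with homogeneous coordinates indexed by the `2 ^ g`
characteristics. -/
abbrev PN (g : ℕ) : Type := ℙ ℂ ((Fin g → Fin 2) → ℂ)

/-- The open subsets of projective space: those for which the cone of homogeneous coordinate
vectors is open. -/
def IsOpenP {g : ℕ} (P : Set (PN g)) : Prop :=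
  IsOpen {v : (Fin g → Fin 2) → ℂ | ∃ h : v ≠ 0, Projectivization.mk ℂ v h ∈ P}

/-- The function `F` is holomorphic on the (open) subset `P` of projective space: near each vector
of homogeneous coordinates of a point of `P` it is an analytic function of the homogeneous
coordinates. -/
def HolOnP {g : ℕ} (P : Set (PN g)) (F : PN g → ℂ) : Prop :=
  ∀ (v : (Fin g → Fin 2) → ℂ) (h : v ≠ 0), Projectivization.mk ℂ v h ∈ P →
    ∃ G : ((Fin g → Fin 2) → ℂ) → ℂ, AnalyticAt ℂ G v ∧
      ∀ᶠ w in 𝓝 v, ∀ hw : w ≠ 0, F (Projectivization.mk ℂ w hw) = G w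

/-- The map `ℋ_g → ℙ^(2^g - 1)`, `τ ↦ [Θ[ε](τ)]`, which induces the theta map
`Th : 𝒜_g(2,4) → ℙ^(2^g - 1)`. -/
noncomputable def thetaMap {g : ℕ} (τ : Siegel g) : PN g :=
  Projectivization.mk ℂ (thetaVec τ) (thetaVec_ne_zero τ)

/-- The theta map `Th` restricts to an isomorphism of complex analytic spaces from the (open)
subset `W` of `𝒜_g(2,4)` onto its image. The image carries the topology induced from
projective space and the sheaf of the functions which locally are restrictions of holomorphic
functions on open subsets of projective space. (`Th (proj τ) = thetaMap τ`; all conditions are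
expressed in terms of the points `τ` of `ℋ_g` over `W`.) -/
structure IsEmbeddingOn {g : ℕ} (W : Set (A24 g)) : Prop where
  /-- `Th` is well defined and injective on `W`. -/
  injective : ∀ τ τ' : Siegel g, proj τ ∈ W → proj τ' ∈ W →
    (thetaMap τ = thetaMap τ' ↔ proj τ = proj τ')
  /-- `Th` is a homeomorphism from `W` onto its image. -/
  homeomorphism : ∀ V ⊆ W, IsOpen V ↔ ∃ P : Set (PN g), IsOpenP P ∧
    ∀ τ : Siegel g, proj τ ∈ W → (proj τ ∈ V ↔ thetaMap τ ∈ P)
  /-- A function on an open subset `V` of `W` is holomorphic if and only if it corresponds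
  to a section of the structure sheaf of the image. -/
  sheaf : ∀ V ⊆ W, IsOpen V → ∀ f : A24 g → ℂ, HolOn V f ↔
    ∀ τ : Siegel g, proj τ ∈ V → ∃ (P : Set (PN g)) (F : PN g → ℂ), IsOpenP P ∧ HolOnP P F ∧
      thetaMap τ ∈ P ∧ ∀ σ : Siegel g, proj σ ∈ V → thetaMap σ ∈ P → f (proj σ) = F (thetaMap σ)

end Pool.Agent.TH150.Theta
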