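import Pool.Agent.TH150.Theta.Series

/-!
# The theta constants of second order have no common zero
-/

set_option autoImplicit false

namespace Pool.Agent.TH150.Theta

open Filter Topology Matrix MeasureTheory

variable {g : ℕ}

theorem posDef_lower {P : Matrix (Fin g) (Fin g) ℝ} (hP : P.PosDef) :
    ∃ c : ℝ, 0 < c ∧ ∀ v : Fin g → ℝ, c * ∑ i, v i ^ 2 ≤ ∑ i, ∑ j, v i * v j * P i j := by
  have hq : ∀ v : Fin g → ℝ, v ⬝ᵥ (P *ᵥ v) = ∑ i, ∑ j, v i * v j * P i j := by
    intro v
    simp only [dotProduct, mulVec, Finset.mul_sum]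
    exact Finset.sum_congr rfl fun i _ => Finset.sum_congr rfl fun j _ => by ring
  set S : Set (Fin g → ℝ) := {v | ∑ i, v i ^ 2 = 1} with hS
  rcases Set.eq_empty_or_nonempty S with hne | hne
  · refine ⟨1, one_pos, fun v => ?_⟩
    have hv : ∑ i, v i ^ 2 = 0 := by
      by_contra h
      have hpos : 0 < ∑ i, v i ^ 2 := lt_of_le_of_ne (Finset.sum_nonneg fun i _ => sq_nonneg _)
        (Ne.symm h)
      have : (fun i => v i / Real.sqrt (∑ i, v i ^ 2)) ∈ S := by
        simp only [hS, Set.mem_setOf_eq, div_pow, Real.sq_sqrt hpos.le, ← Finset.sum_div]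
        exact div_self h
      rw [hne] at this
      exact this
    have hv0 : ∀ i, v i = 0 := by
      intro i
      have := (Finset.sum_eq_zero_iff_of_nonneg (fun i _ => sq_nonneg (v i))).mp hv i
        (Finset.mem_univ _)
      exact pow_eq_zero_iff two_ne_zero |>.mp this
    simp [hv0]
  · have hcomp : IsCompact S := by
      refine Metric.isCompact_of_isClosed_isBounded ?_ ?_
      · exact isClosed_eq (by fun_prop) continuous_const
      · refine (Metric.isBounded_iff_subset_closedBall 0).mpr ⟨1, fun v hv => ?_⟩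
        rw [mem_closedBall_zero_iff, pi_norm_le_iff_of_nonneg zero_le_one]
        intro i
        rw [Real.norm_eq_abs, ← sq_le_one_iff_abs_le_one]
        have : ∑ i, v i ^ 2 = 1 := hv
        rw [← this]
        exact Finset.single_le_sum (f := fun i => v i ^ 2) (fun i _ => sq_nonneg _)
          (Finset.mem_univ i)
    obtain ⟨v₀, hv₀, hmin⟩ := hcomp.exists_isMinOn hne
      (f := fun v : Fin g → ℝ => ∑ i, ∑ j, v i * v j * P i j) (by fun_prop)
    refine ⟨∑ i, ∑ j, v₀ i * v₀ j * P i j, ?_, fun v => ?_⟩
    · rw [← hq]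
      have hne0 : v₀ ≠ 0 := by
        rintro rfl
        simp [hS] at hv₀
      simpa using hP.dotProduct_mulVec_pos hne0
    · by_cases h : ∑ i, v i ^ 2 = 0
      · have hv0 : ∀ i, v i = 0 := by
          intro i
          have := (Finset.sum_eq_zero_iff_of_nonneg (fun i _ => sq_nonneg (v i))).mp h i
            (Finset.mem_univ _)
          exact pow_eq_zero_iff two_ne_zero |>.mp this
        simp [hv0]
      · have hpos : 0 < ∑ i, v i ^ 2 := lt_of_le_of_ne (Finset.sum_nonneg fun i _ => sq_nonneg _)
          (Ne.symm h)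
        have hmem : (fun i => v i / Real.sqrt (∑ i, v i ^ 2)) ∈ S := by
          simp only [hS, Set.mem_setOf_eq, div_pow, Real.sq_sqrt hpos.le, ← Finset.sum_div]
          exact div_self h
        have h1 := hmin hmem
        simp only [Set.mem_setOf_eq] at h1
        have h2 : ∑ i, ∑ j, v i / Real.sqrt (∑ i, v i ^ 2) * (v j / Real.sqrt (∑ i, v i ^ 2)) * P i j =
            (∑ i, ∑ j, v i * v j * P i j) / ∑ i, v i ^ 2 := by
          rw [Finset.sum_div]
          refine Finset.sum_congr rfl fun i _ => ?_
          rw [Finset.sum_div]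
          refine Finset.sum_congr rfl fun j _ => ?_
          rw [div_mul_div_comm, Real.mul_self_sqrt hpos.le]
          ring
        rw [h2, le_div_iff₀ hpos] at h1
        exact h1

theorem summable_gauss' {c : ℝ} (hc : 0 < c) (b : ℝ) :
    Summable (fun n : ℤ => Real.exp (-(2 * Real.pi * c) * ((n : ℝ) + b) ^ 2)) := by
  have h1 := ((summable_jacobiTheta₂_term_iff (((2 * c * b : ℝ) : ℂ) * Complex.I)
    (((2 * c : ℝ) : ℂ) * Complex.I)).mpr (by simp [hc])).norm
  have h2 := h1.mul_left (Real.exp (-(2 * Real.pi * c) * b ^ 2))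
  refine h2.congr fun n => ?_
  rw [norm_jacobiTheta₂_term, ← Real.exp_add]
  congr 1
  simp
  ring

/-- Gaussian series are summable. -/
theorem summable_term (e : Fin g → Fin 2) {x : SymSpace g} (hx : x ∈ siegelSet g) :
    Summable (term e x) := by
  obtain ⟨c, hc, hlow⟩ := posDef_lower hx
  have hs := summable_pi_fin g (fun i m => Real.exp (-(2 * Real.pi * c) *
    ((m : ℝ) + ((e i : ℕ) : ℝ) / 2) ^ 2)) (fun _ _ => (Real.exp_pos _).le)
    (fun i => summable_gauss' hc _)
  refine hs.of_norm_bounded fun n => ?_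
  rw [term, Complex.norm_exp, ← Real.exp_sum]
  refine Real.exp_le_exp.mpr ?_
  have h1 : (2 * Real.pi * Complex.I * ∑ i, ∑ j,
      ((((n i : ℝ) + ((e i : ℕ) : ℝ) / 2) * ((n j : ℝ) + ((e j : ℕ) : ℝ) / 2) : ℝ) : ℂ) *
        x s(i, j)).re = - (2 * Real.pi) * ∑ i, ∑ j, ((n i : ℝ) + ((e i : ℕ) : ℝ) / 2) *
        ((n j : ℝ) + ((e j : ℕ) : ℝ) / 2) * (x s(i, j)).im := by
    have : (2 * Real.pi * Complex.I : ℂ) = ((2 * Real.pi : ℝ) : ℂ) * Complex.I := by push_cast; ring
    rw [this, mul_assoc, Complex.re_ofReal_mul, Complex.I_mul_re, Complex.im_sum]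
    simp only [Complex.im_sum, Complex.im_ofReal_mul]
    ring
  rw [h1]
  have h2 := hlow (fun i => (n i : ℝ) + ((e i : ℕ) : ℝ) / 2)
  simp only [toMat, Matrix.map_apply, of_apply] at h2
  rw [← Finset.mul_sum]
  have hpi := Real.pi_pos
  nlinarith

/-- The coefficients of the Riemann theta function. -/
noncomputable def coef (x : SymSpace g) (n : Fin g → ℤ) : ℂ :=
  Complex.exp (Real.pi * Complex.I * ∑ i, ∑ j, ((n i : ℂ) * (n j : ℂ)) * x s(i, j))

theorem coef_eq_term (x : SymSpace g) (n : Fin g → ℤ) :
    coef x n = term 0 (fun e => x e / 2) n := by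
  unfold coef term
  congr 1
  simp only [Pi.zero_apply, Fin.val_zero, Nat.cast_zero, zero_div, add_zero, Finset.mul_sum]
  refine Finset.sum_congr rfl fun i _ => Finset.sum_congr rfl fun j _ => ?_
  push_cast
  ring

theorem half_mem {x : SymSpace g} (hx : x ∈ siegelSet g) : (fun e => x e / 2) ∈ siegelSet g := by
  have h : (toMat (fun e => x e / 2)).map Complex.im = (1 / 2 : ℝ) • (toMat x).map Complex.im := by
    ext i j
    simp only [toMat, Matrix.map_apply, of_apply, Matrix.smul_apply, smul_eq_mul]
    have : x s(i, j) / 2 = ((1 / 2 : ℝ) : ℂ) * x s(i, j) := by push_cast; ring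
    rw [this, Complex.im_ofReal_mul]
  change ((toMat (fun e => x e / 2)).map Complex.im).PosDef
  rw [h]
  exact Matrix.PosDef.smul hx (by norm_num)

theorem summable_coef {x : SymSpace g} (hx : x ∈ siegelSet g) : Summable (coef x) := by
  have h := summable_term (0 : Fin g → Fin 2) (half_mem hx)
  exact h.congr fun n => (coef_eq_term x n).symm

/-- The convolution square of the coefficients of the theta function. -/
theorem conv_coef {x : SymSpace g} (k : Fin g → ℤ) :
    ∃ (e : Fin g → Fin 2) (κ : ℂ), ∑' n, coef x n * coef x (k - n) = κ * Th e x := by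
  let e : Fin g → Fin 2 := fun i => if k i % 2 = 0 then 0 else 1
  let l : Fin g → ℤ := fun i => k i / 2
  have hk : ∀ i, k i = 2 * l i + ((e i : ℕ) : ℤ) := by
    intro i
    simp only [e, l]
    split_ifs with h
    · simp; omega
    · simp; omega
  refine ⟨e, Complex.exp (2 * Real.pi * Complex.I * ∑ i, ∑ j,
    (((l i : ℂ) + ((e i : ℕ) : ℂ) / 2) * ((l j : ℂ) + ((e j : ℕ) : ℂ) / 2)) * x s(i, j)), ?_⟩
  rw [← (Equiv.addRight (fun i => l i + ((e i : ℕ) : ℤ))).tsum_eq, Th, ← tsum_mul_left]
  refine tsum_congr fun n => ?_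
  simp only [coef, term, Equiv.coe_addRight, ← Complex.exp_add]
  congr 1
  simp only [Finset.mul_sum, ← Finset.sum_add_distrib]
  refine Finset.sum_congr rfl fun i _ => Finset.sum_congr rfl fun j _ => ?_
  simp only [Pi.add_apply, Pi.sub_apply, hk i, hk j]
  push_cast
  ring

section Fourier

open UnitAddTorus

attribute [-instance] AddCircle.measureSpace

/-- The measure on `ℝ / ℤ` normalised to have total volume 1. -/
noncomputable local instance : MeasureSpace UnitAddCircle := ⟨AddCircle.haarAddCircle⟩

local instance : Measure.IsAddHaarMeasure (volume : Measure UnitAddCircle) :=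
  inferInstanceAs (Measure.IsAddHaarMeasure AddCircle.haarAddCircle)

local instance : IsProbabilityMeasure (volume : Measure UnitAddCircle) :=
  inferInstanceAs (IsProbabilityMeasure AddCircle.haarAddCircle)

theorem summable_mFourier {a : (Fin g → ℤ) → ℂ} (ha : Summable a) :
    Summable fun n => a n • (mFourier n : C(UnitAddTorus (Fin g), ℂ)) := by
  refine Summable.of_norm ?_
  refine ha.norm.congr fun n => ?_
  rw [norm_smul, mFourier_norm, mul_one]

/-- A summable family whose Fourier series vanishes is zero. -/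
theorem fourier_unique {a : (Fin g → ℤ) → ℂ} (ha : Summable a)
    (h : ∑' n, a n • (mFourier n : C(UnitAddTorus (Fin g), ℂ)) = 0) (m : Fin g → ℤ) : a m = 0 := by
  have h1 := (summable_mFourier ha).hasSum
  rw [h] at h1
  have h2 := (ContinuousMap.toLp (E := ℂ) 2 (volume : Measure (UnitAddTorus (Fin g))) ℂ).hasSum h1
  rw [map_zero] at h2
  have h3 : HasSum (fun n => a n •
      (mFourierLp 2 n : Lp ℂ 2 (volume : Measure (UnitAddTorus (Fin g))))) 0 := by
    refine h2.congr_fun fun n => ?_
    simp
  have h4 := (innerSL ℂ (mFourierLp (d := Fin g) 2 m)).hasSum h3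
  rw [map_zero] at h4
  have h5 : HasSum (fun n => if n = m then a n else 0) 0 := by
    refine h4.congr_fun fun n => ?_
    have := (orthonormal_iff_ite.mp (orthonormal_mFourier (d := Fin g))) m n
    simp only [innerSL_apply_apply, inner_smul_right, this]
    by_cases hmn : m = n
    · simp [hmn]
    · simp [hmn, Ne.symm hmn]
  have h6 := h5.unique (hasSum_ite_eq m (a m) |>.congr_fun fun n => by split_ifs with h <;> simp [h])
  exact h6.symm

/-- A summable family with vanishing convolution square is zero. -/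
theorem conv_unique {a : (Fin g → ℤ) → ℂ} (ha : Summable a)
    (h : ∀ k, ∑' n, a n * a (k - n) = 0) (m : Fin g → ℤ) : a m = 0 := by
  refine fourier_unique ha ?_ m
  let F : (Fin g → ℤ) → C(UnitAddTorus (Fin g), ℂ) := fun n => a n • mFourier n
  change ∑' n, F n = 0
  have hsn : Summable fun n => ‖F n‖ := by
    refine ha.norm.congr fun n => ?_
    simp only [F]
    rw [norm_smul, mFourier_norm, mul_one]
  have hff : (∑' n, F n) * (∑' n, F n) = 0 := by
    rw [tsum_mul_tsum_of_summable_norm (f := F) (g := F) hsn hsn]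
    let Φ : (Fin g → ℤ) × (Fin g → ℤ) → C(UnitAddTorus (Fin g), ℂ) := fun z => F z.1 * F z.2
    have hprod : Summable Φ := summable_mul_of_summable_norm (f := F) (g := F) hsn hsn
    -- reindex by `(k, n)` with `k = n + m`
    let E : ((Fin g → ℤ) × (Fin g → ℤ)) ≃ ((Fin g → ℤ) × (Fin g → ℤ)) :=
      { toFun := fun p => (p.2, p.1 - p.2)
        invFun := fun p => (p.1 + p.2, p.1)
        left_inv := fun p => by simp
        right_inv := fun p => by simp }
    change ∑' z, Φ z = 0
    rw [← E.tsum_eq Φ]
    have hprod' : Summable fun c => Φ (E c) := (E.summable_iff).mpr hprod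
    rw [hprod'.tsum_prod]
    have h1 : ∀ k n, Φ (E (k, n)) = (a n * a (k - n)) • mFourier k := by
      intro k n
      ext y
      simp only [Φ, F, E, Equiv.coe_fn_mk, ContinuousMap.mul_apply, ContinuousMap.smul_apply,
        smul_eq_mul]
      have : mFourier k y = mFourier n y * mFourier (k - n) y := by
        rw [← mFourier_add]; congr 2; abel
      rw [this]; ring
    have hk : ∀ k : Fin g → ℤ, ∑' n, Φ (E (k, n)) = 0 := by
      intro k
      rw [tsum_congr (h1 k)]
      have hs2 : Summable fun n => a n * a (k - n) := by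
        have hn : Summable fun n => ‖a n‖ := ha.norm
        have h2 := summable_mul_of_summable_norm (f := a) (g := a) hn hn
        exact h2.comp_injective (i := fun n => (n, k - n)) fun n n' h => (Prod.ext_iff.mp h).1
      rw [hs2.tsum_smul_const, h k, zero_smul]
    rw [tsum_congr hk, tsum_zero]
  ext y
  have := congrArg (fun F : C(UnitAddTorus (Fin g), ℂ) => F y) hff
  simpa using this

end Fourier

/-- The theta constants of second order have no common zero. -/
theorem thetaVec_ne_zero (τ : Siegel g) : thetaVec τ ≠ 0 := by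
  intro h0
  have h1 : ∀ e, Th e τ.1 = 0 := by
    intro e
    rw [← theta_eq]
    exact congrFun h0 e
  have h2 : ∀ k, ∑' n, coef τ.1 n * coef τ.1 (k - n) = 0 := by
    intro k
    obtain ⟨e, κ, h⟩ := conv_coef (x := τ.1) k
    rw [h, h1, mul_zero]
  have h3 := conv_unique (summable_coef τ.2) h2 0
  exact Complex.exp_ne_zero _ h3

end Pool.Agent.TH150.Theta
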