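import Pool.Agent.TH150.Theta.Family

/-!
# The theta constants near the base point
-/

set_option autoImplicit false

namespace Pool.Agent.TH150.Theta

open Filter Topology Asymptotics Matrix

variable {g : ℕ}

theorem summable_pi_fin (g : ℕ) (f : Fin g → ℤ → ℝ) (hf0 : ∀ i n, 0 ≤ f i n)
    (hf : ∀ i, Summable (f i)) : Summable (fun n : Fin g → ℤ => ∏ i, f i (n i)) := by
  induction g with
  | zero => exact Summable.of_finite
  | succ g ih =>
    have h1 : Summable (fun n : Fin g → ℤ => ∏ i : Fin g, f i.succ (n i)) :=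
      ih (fun i => f i.succ) (fun i n => hf0 _ n) (fun i => hf _)
    have h2 : Summable (fun p : ℤ × (Fin g → ℤ) => f 0 p.1 * ∏ i : Fin g, f i.succ (p.2 i)) := by
      have n1 : (0 : ℤ → ℝ) ≤ f 0 := fun n => hf0 0 n
      have n2 : (0 : (Fin g → ℤ) → ℝ) ≤ fun n : Fin g → ℤ => ∏ i : Fin g, f i.succ (n i) :=
        fun n => Finset.prod_nonneg fun i _ => hf0 _ _
      exact Summable.mul_of_nonneg (f := f 0)
        (g := fun n : Fin g → ℤ => ∏ i : Fin g, f i.succ (n i)) (hf 0) h1 n1 n2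
    have e : (ℤ × (Fin g → ℤ)) ≃ (Fin (g + 1) → ℤ) := Fin.consEquiv (fun _ : Fin (g + 1) => ℤ)
    have h4 : ∀ p : ℤ × (Fin g → ℤ),
        ∏ i, f i ((Fin.consEquiv (fun _ : Fin (g + 1) => ℤ)) p i) =
          f 0 p.1 * ∏ i : Fin g, f i.succ (p.2 i) := by
      intro p
      rw [Fin.prod_univ_succ]
      rfl
    refine (Equiv.summable_iff (Fin.consEquiv (fun _ : Fin (g + 1) => ℤ))).mp ?_
    exact h2.congr fun p => (h4 p).symm

theorem summable_gauss (c : ℝ) : Summable (fun n : ℤ => Real.exp (-Real.pi * ((n : ℝ) + c) ^ 2)) := by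
  have h1 := ((summable_jacobiTheta₂_term_iff (c * Complex.I) Complex.I).mpr (by simp)).norm
  have h2 := h1.mul_left (Real.exp (-Real.pi * c ^ 2))
  refine h2.congr fun n => ?_
  rw [norm_jacobiTheta₂_term, ← Real.exp_add]
  congr 1
  simp
  ring

/-- The general term of the theta series. -/
noncomputable def term (e : Fin g → Fin 2) (x : SymSpace g) (n : Fin g → ℤ) : ℂ :=
  Complex.exp (2 * Real.pi * Complex.I * ∑ i, ∑ j,
    ((((n i : ℝ) + ((e i : ℕ) : ℝ) / 2) * ((n j : ℝ) + ((e j : ℕ) : ℝ) / 2) : ℝ) : ℂ) * x s(i, j))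

/-- The theta constant as a function on the space of symmetric matrices. -/
noncomputable def Th (e : Fin g → Fin 2) (x : SymSpace g) : ℂ := ∑' n, term e x n

theorem theta_eq (e : Fin g → Fin 2) (x : SymSpace g) :
    theta (fun i => ((e i : ℕ) : ℝ) / 2) 0 ((2 : ℂ) • toMat x) 0 = Th e x := by
  unfold theta Th term
  refine tsum_congr fun n => ?_
  congr 1
  simp only [dotProduct, mulVec, Pi.add_apply, Pi.smul_apply, Pi.zero_apply, smul_eq_mul,
    Matrix.smul_apply, toMat, Matrix.of_apply, Finset.mul_sum]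
  simp only [Complex.ofReal_zero, mul_zero, add_zero, Finset.mul_sum]
  refine Finset.sum_congr rfl fun i _ => ?_
  refine Finset.sum_congr rfl fun j _ => ?_
  push_cast
  ring

/-- The majorant. -/
noncomputable def maj (e : Fin g → Fin 2) (n : Fin g → ℤ) : ℝ :=
  ∏ i, Real.exp (-Real.pi * ((n i : ℝ) + ((e i : ℕ) : ℝ) / 2) ^ 2)

theorem summable_maj (e : Fin g → Fin 2) : Summable (maj e) :=
  summable_pi_fin g (fun i m => Real.exp (-Real.pi * ((m : ℝ) + ((e i : ℕ) : ℝ) / 2) ^ 2))
    (fun _ _ => (Real.exp_pos _).le) (fun _ => summable_gauss _)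

/-- The radius. -/
noncomputable def rad (g : ℕ) : ℝ := 1 / (2 * (g + 1))

theorem rad_pos (g : ℕ) : 0 < rad g := by unfold rad; positivity

theorem quad_lower {x : SymSpace g} (hx : ∀ e, ‖x e - base g e‖ < rad g) (v : Fin g → ℝ) :
    (1 / 2) * ∑ i, v i ^ 2 ≤ ∑ i, ∑ j, v i * v j * (x s(i, j)).im := by
  have h1 : ∀ i j, (x s(i, j)).im = (if i = j then 1 else 0) + (x s(i, j) - base g s(i, j)).im := by
    intro i j
    rw [base_mk]
    split_ifs <;> simp
  have h2 : ∑ i, ∑ j, v i * v j * (x s(i, j)).im =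
      ∑ i, v i ^ 2 + ∑ i, ∑ j, v i * v j * (x s(i, j) - base g s(i, j)).im := by
    rw [← Finset.sum_add_distrib]
    refine Finset.sum_congr rfl fun i _ => ?_
    have : ∀ j, v i * v j * (x s(i, j)).im = (if i = j then v i * v j else 0) +
        v i * v j * (x s(i, j) - base g s(i, j)).im := by
      intro j
      rw [h1 i j]
      split_ifs <;> ring
    rw [Finset.sum_congr rfl fun j _ => this j, Finset.sum_add_distrib, Finset.sum_ite_eq]
    simp [pow_two]
  have h3 : |∑ i, ∑ j, v i * v j * (x s(i, j) - base g s(i, j)).im| ≤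
      rad g * (∑ i, |v i|) ^ 2 := by
    calc |∑ i, ∑ j, v i * v j * (x s(i, j) - base g s(i, j)).im|
        ≤ ∑ i, ∑ j, |v i| * |v j| * rad g := by
          refine (Finset.abs_sum_le_sum_abs _ _).trans (Finset.sum_le_sum fun i _ => ?_)
          refine (Finset.abs_sum_le_sum_abs _ _).trans (Finset.sum_le_sum fun j _ => ?_)
          rw [abs_mul, abs_mul]
          refine mul_le_mul_of_nonneg_left ?_ (by positivity)
          exact (Complex.abs_im_le_norm _).trans (hx _).le
      _ = rad g * (∑ i, |v i|) ^ 2 := by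
          rw [pow_two, Finset.sum_mul_sum, Finset.mul_sum]
          refine Finset.sum_congr rfl fun i _ => ?_
          rw [Finset.mul_sum]
          exact Finset.sum_congr rfl fun j _ => by ring
  have h4 : (∑ i, |v i|) ^ 2 ≤ g * ∑ i, v i ^ 2 := by
    have := sq_sum_le_card_mul_sum_sq (s := (Finset.univ : Finset (Fin g))) (f := fun i => |v i|)
    simpa using this
  have h5 : rad g * (g * ∑ i, v i ^ 2) ≤ (1 / 2) * ∑ i, v i ^ 2 := by
    have hs : 0 ≤ ∑ i, v i ^ 2 := Finset.sum_nonneg fun i _ => sq_nonneg _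
    have : rad g * g ≤ 1 / 2 := by
      unfold rad
      rw [div_mul_eq_mul_div, div_le_iff₀ (by positivity)]
      linarith
    nlinarith
  have h6 := abs_le.mp (h3.trans (mul_le_mul_of_nonneg_left h4 (rad_pos g).le))
  rw [h2]
  linarith [h6.1]

theorem norm_term_le (e : Fin g → Fin 2) {x : SymSpace g}
    (hx : ∀ e, ‖x e - base g e‖ < rad g) (n : Fin g → ℤ) : ‖term e x n‖ ≤ maj e n := by
  rw [term, Complex.norm_exp, maj, ← Real.exp_sum]
  refine Real.exp_le_exp.mpr ?_
  have h1 : (2 * Real.pi * Complex.I * ∑ i, ∑ j,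
      ((((n i : ℝ) + ((e i : ℕ) : ℝ) / 2) * ((n j : ℝ) + ((e j : ℕ) : ℝ) / 2) : ℝ) : ℂ) *
        x s(i, j)).re = - (2 * Real.pi) * ∑ i, ∑ j, ((n i : ℝ) + ((e i : ℕ) : ℝ) / 2) *
        ((n j : ℝ) + ((e j : ℕ) : ℝ) / 2) * (x s(i, j)).im := by
    have : (2 * Real.pi * Complex.I : ℂ) = ((2 * Real.pi : ℝ) : ℂ) * Complex.I := by push_cast; ring
    rw [this, mul_assoc, Complex.re_ofReal_mul, Complex.I_mul_re, Complex.im_sum]
    simp only [Complex.im_sum, Complex.im_ofReal_mul]
    ring
  rw [h1]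
  have h2 := quad_lower hx (fun i => (n i : ℝ) + ((e i : ℕ) : ℝ) / 2)
  rw [← Finset.mul_sum]
  have hpi := Real.pi_pos
  nlinarith

theorem mem_ball_iff {x : SymSpace g} {r : ℝ} (hr : 0 < r) :
    x ∈ Metric.ball (base g) r ↔ ∀ e, ‖x e - base g e‖ < r := by
  rw [mem_ball_iff_norm, pi_norm_lt_iff hr]
  rfl

theorem norm_Th_le (e : Fin g → Fin 2) {x : SymSpace g}
    (hx : ∀ e, ‖x e - base g e‖ < rad g) : ‖Th e x‖ ≤ ∑' n, maj e n :=
  tsum_of_norm_bounded (summable_maj e).hasSum (norm_term_le e hx)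

theorem continuousOn_Th (e : Fin g → Fin 2) :
    ContinuousOn (Th e) (Metric.ball (base g) (rad g)) := by
  refine continuousOn_tsum (fun n => ?_) (summable_maj e) (fun n x hx => ?_)
  · refine Continuous.continuousOn ?_
    unfold term
    fun_prop
  · exact norm_term_le e ((mem_ball_iff (rad_pos g)).mp hx) n

theorem continuousAt_Th (e : Fin g → Fin 2) : ContinuousAt (Th e) (base g) :=
  (continuousOn_Th e).continuousAt (Metric.ball_mem_nhds _ (rad_pos g))

theorem update_mem {x : SymSpace g} {r : ℝ} (hx : ∀ e, ‖x e - base g e‖ < r)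
    (e : Sym2 (Fin g)) {z : ℂ} (hz : ‖z‖ < r) :
    ∀ e', ‖Function.update x e (base g e + z) e' - base g e'‖ < r := by
  intro e'
  by_cases h : e' = e
  · subst h; simpa using hz
  · rw [Function.update_of_ne h]; exact hx e'

theorem differentiableOn_Th (e : Fin g → Fin 2) {x : SymSpace g}
    (hx : ∀ e, ‖x e - base g e‖ < rad g) (e' : Sym2 (Fin g)) :
    DifferentiableOn ℂ (fun z => Th e (Function.update x e' (base g e' + z)))
      (Metric.ball 0 (rad g)) := by
  refine Complex.differentiableOn_tsum_of_summable_norm (summable_maj e) (fun n => ?_)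
    Metric.isOpen_ball (fun n z hz => ?_)
  · refine Differentiable.differentiableOn ?_
    unfold term
    refine Differentiable.cexp (Differentiable.const_mul ?_ _)
    refine Differentiable.fun_sum fun i _ => Differentiable.fun_sum fun j _ => ?_
    refine Differentiable.const_mul ?_ _
    by_cases h : s(i, j) = e'
    · subst h
      simp only [Function.update_self]
      fun_prop
    · simp only [Function.update_of_ne h]
      fun_prop
  · exact norm_term_le e (update_mem hx e' (by simpa using hz)) n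

/-- The change of the summation index which corresponds to a change of signs. -/
def reindex (D : Fin g → ℤˣ) (e : Fin g → Fin 2) : (Fin g → ℤ) ≃ (Fin g → ℤ) where
  toFun n i := if D i = 1 then n i else - n i - (e i : ℕ)
  invFun n i := if D i = 1 then n i else - n i - (e i : ℕ)
  left_inv n := by
    ext i
    by_cases h : D i = 1 <;> simp [h]
  right_inv n := by
    ext i
    by_cases h : D i = 1 <;> simp [h]

theorem Th_act (e : Fin g → Fin 2) (D : Fin g → ℤˣ) (x : SymSpace g) :
    Th e (act D x) = Th e x := by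
  unfold Th
  rw [← (reindex D e).tsum_eq]
  refine tsum_congr fun n => ?_
  unfold term
  congr 2
  refine Finset.sum_congr rfl fun i _ => Finset.sum_congr rfl fun j _ => ?_
  have h : ∀ i, (((reindex D e n i : ℤ) : ℝ) + ((e i : ℕ) : ℝ) / 2) =
      ((D i : ℤ) : ℝ) * ((n i : ℝ) + ((e i : ℕ) : ℝ) / 2) := by
    intro i
    simp only [reindex, Equiv.coe_fn_mk]
    rcases Int.units_eq_one_or (D i) with h | h
    · simp [h]
    · have : D i ≠ 1 := by rw [h]; decide
      rw [if_neg this, h]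
      push_cast
      ring
  rw [h i, h j]
  simp only [act, sgn_mk]
  rcases Int.units_eq_one_or (D i) with h1 | h1 <;> rcases Int.units_eq_one_or (D j) with h2 | h2 <;>
    rw [h1, h2] <;> push_cast <;> ring

theorem Th_zero_base : Th (0 : Fin g → Fin 2) (base g) ≠ 0 := by
  have h1 : ∀ n : Fin g → ℤ, term 0 (base g) n = ((Real.exp (-(2 * Real.pi) * ∑ i, (n i : ℝ) ^ 2) : ℝ) : ℂ) := by
    intro n
    rw [term, Complex.ofReal_exp]
    congr 1
    have h2 : ∀ i, ∑ j, ((((n i : ℝ) + (((0 : Fin g → Fin 2) i : ℕ) : ℝ) / 2) *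
        ((n j : ℝ) + (((0 : Fin g → Fin 2) j : ℕ) : ℝ) / 2) : ℝ) : ℂ) * base g s(i, j) =
        (n i : ℂ) ^ 2 * Complex.I := by
      intro i
      simp only [base_mk, mul_ite, mul_zero, Finset.sum_ite_eq, Finset.mem_univ, if_true]
      simp [pow_two]
    rw [Finset.sum_congr rfl fun i _ => h2 i, ← Finset.sum_mul]
    push_cast
    linear_combination (2 * (Real.pi : ℂ) * ∑ i, (n i : ℂ) ^ 2) * Complex.I_sq
  have hs : Summable (fun n : Fin g → ℤ => Real.exp (-(2 * Real.pi) * ∑ i, (n i : ℝ) ^ 2)) := by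
    have h3 : Summable (term (0 : Fin g → Fin 2) (base g)) :=
      (summable_maj 0).of_norm_bounded (norm_term_le 0 (fun e => by simpa using rad_pos g))
    have h4 := h3.norm
    refine h4.congr fun n => ?_
    rw [h1, Complex.norm_real, Real.norm_of_nonneg (Real.exp_pos _).le]
  have h5 : Th (0 : Fin g → Fin 2) (base g) =
      ((∑' n : Fin g → ℤ, Real.exp (-(2 * Real.pi) * ∑ i, (n i : ℝ) ^ 2) : ℝ) : ℂ) := by
    rw [Complex.ofReal_tsum, Th]
    exact tsum_congr h1
  rw [h5]
  have h6 : 0 < ∑' n : Fin g → ℤ, Real.exp (-(2 * Real.pi) * ∑ i, (n i : ℝ) ^ 2) :=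
    hs.tsum_pos (fun n => (Real.exp_pos _).le) 0 (Real.exp_pos _)
  exact_mod_cast h6.ne'

/-- The affine coordinates. -/
noncomputable def quo (x : SymSpace g) (e : Fin g → Fin 2) : ℂ := Th e x / Th 0 x

theorem exists_nice (g : ℕ) : ∃ r, 0 < r ∧ r ≤ rad g ∧
    (∀ x : SymSpace g, (∀ e, ‖x e - base g e‖ < r) → Th 0 x ≠ 0) ∧
    ∀ e : Fin g → Fin 2, ∃ M, Nice (fun x => quo x e) r M := by
  set c := ‖Th (0 : Fin g → Fin 2) (base g)‖ with hc
  have hcpos : 0 < c := norm_pos_iff.mpr Th_zero_base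
  have h1 : ∀ᶠ x in 𝓝 (base g), c / 2 < ‖Th (0 : Fin g → Fin 2) x‖ :=
    (continuousAt_Th 0).norm.eventually (lt_mem_nhds (by
      show c / 2 < ‖Th (0 : Fin g → Fin 2) (base g)‖
      rw [← hc]; linarith))
  obtain ⟨r₀, hr₀, hball⟩ := Metric.eventually_nhds_iff_ball.mp h1
  set r := min r₀ (rad g) with hr
  have hrpos : 0 < r := lt_min hr₀ (rad_pos g)
  have hlow : ∀ x : SymSpace g, (∀ e, ‖x e - base g e‖ < r) → c / 2 < ‖Th 0 x‖ := by
    intro x hx
    refine hball x ?_
    rw [mem_ball_iff hr₀]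
    exact fun e => (hx e).trans_le (min_le_left _ _)
  have hne : ∀ x : SymSpace g, (∀ e, ‖x e - base g e‖ < r) → Th 0 x ≠ 0 := by
    intro x hx h
    have := hlow x hx
    rw [h, norm_zero] at this
    linarith
  have hrad : ∀ x : SymSpace g, (∀ e, ‖x e - base g e‖ < r) → (∀ e, ‖x e - base g e‖ < rad g) :=
    fun x hx e => (hx e).trans_le (min_le_right _ _)
  refine ⟨r, hrpos, min_le_right _ _, hne, fun e => ⟨(∑' n, maj e n) / (c / 2), hrpos, ?_, ?_, ?_⟩⟩
  · intro x hx
    rw [quo, norm_div]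
    refine div_le_div₀ (tsum_nonneg fun n => ?_) (norm_Th_le e (hrad x hx)) (by positivity)
      (hlow x hx).le
    exact Finset.prod_nonneg fun i _ => (Real.exp_pos _).le
  · intro x hx e'
    have hsub : Metric.ball (0 : ℂ) r ⊆ Metric.ball (0 : ℂ) (rad g) :=
      Metric.ball_subset_ball (min_le_right _ _)
    refine DifferentiableOn.div ((differentiableOn_Th e (hrad x hx) e').mono hsub)
      ((differentiableOn_Th 0 (hrad x hx) e').mono hsub) ?_
    intro z hz
    exact hne _ (update_mem hx e' (by simpa using hz))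
  · intro D x
    simp only [quo, Th_act]

end Pool.Agent.TH150.Theta
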